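import Pool.Agent.H20RD.Kinds

/-!
# Quantum algorithms and small families of oracles
-/

set_option autoImplicit false

namespace Pool.Agent.H20LE

open Pool.Agent.NPC Pool.Agent.H620R2.Gauge Pool.Agent.H9x.Q Pool.Agent.H20RD Finset
open Pool.Agent.R562.QH (nrm nrm_sq nrm_nonneg nrm_add_le nrm_congr)

/-- the factor -/
def fac (T : ℕ) : ℕ := 576 * T ^ 2 + 2

variable {κ : Type}

/-- If all the oracles of a finite family are distinguished from a given oracle by a quantum
circuit, then one question distinguishes a large part of them. -/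
theorem exists_kill (A : Oracle) (C : List Gate) {B : ℕ} (hC : Short B C) {m : ℕ}
    (φ : Basis m → ℂ) (hφ : ∑ z, ‖φ z‖ ^ 2 = 1) (F : κ → Oracle) (X : Finset κ) (hX : X.Nonempty)
    (h : ∀ i ∈ X, 1 / 6 ≤ |probW (F i) C φ - probW A C φ|) :
    ∃ y : List Bool, y.length ≤ B ∧
      X.card ≤ 576 * C.length ^ 2 * (X.filter fun i => F i y ≠ A y).card := by
  classical
  by_contra hc
  push Not at hc
  have h1 : ∀ i ∈ X, 1 / 36 ≤ 16 * C.length * tot A (F i) C φ := by
    intro i hi
    have h2 := probW_diff A (F i) C φ hφ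
    have h3 := hybrid A (F i) C φ
    have h4 := nrm_nonneg (run (F i) C φ - run A C φ)
    have h5 : (1 / 6 : ℝ) ^ 2 ≤ (2 * nrm (run (F i) C φ - run A C φ)) ^ 2 :=
      pow_le_pow_left₀ (by norm_num) ((h i hi).trans h2) 2
    nlinarith
  set D := 576 * C.length ^ 2 with hD
  set K : ℕ := (X.card - 1) / D with hK
  have hXc : 0 < X.card := card_pos.2 hX
  rcases Nat.eq_zero_or_pos C.length with hT | hT
  · obtain ⟨i, hi⟩ := hX
    have h2 := h1 i hi
    rw [hT] at h2
    norm_num at h2
  · have hDpos : 0 < D := by rw [hD]; positivity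
    have h2 := sum_tot (ι := X) A (fun i => F i.1) K B (Nat.cast_nonneg _) (fun y hy => by
      have h3 := hc y hy
      norm_cast
      have h4 : (univ.filter fun i : X => F i.1 y ≠ A y).card =
          (X.filter fun i => F i y ≠ A y).card := by
        rw [← card_map (Function.Embedding.subtype fun i => i ∈ X)]
        congr 1
        ext i
        simp only [mem_map, mem_filter, mem_univ, true_and, Function.Embedding.coe_subtype,
          Subtype.exists, exists_and_left, exists_prop, exists_eq_right_right]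
        tauto
      rw [h4, hK, Nat.le_div_iff_mul_le hDpos, mul_comm]
      omega) C hC φ
    rw [hφ, mul_one] at h2
    have h3 : ∑ i : X, (1 / 36 : ℝ) ≤ ∑ i : X, 16 * C.length * tot A (F i.1) C φ :=
      sum_le_sum fun i _ => h1 i.1 i.2
    rw [← mul_sum, sum_const, card_univ, Fintype.card_coe, nsmul_eq_mul] at h3
    have h4 : (X.card : ℝ) * (1 / 36) ≤ 16 * C.length * (C.length * K) :=
      h3.trans (mul_le_mul_of_nonneg_left h2 (by positivity))
    have h5 : (X.card : ℝ) ≤ D * K := by
      rw [hD]
      push_cast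
      nlinarith
    have h6 : X.card ≤ D * K := by exact_mod_cast h5
    have h7 : D * K ≤ X.card - 1 := Nat.mul_div_le _ _
    omega

/-- the numbers -/
theorem two_mul_pow_le {D : ℕ} (hD : 2 ≤ D) : 2 * (D - 1) ^ D ≤ D ^ D := by
  obtain ⟨d, rfl⟩ : ∃ d, D = d + 1 := ⟨D - 1, by omega⟩
  have hd : 1 ≤ d := by omega
  rw [Nat.add_sub_cancel]
  have h1 : (2 : ℝ) * (d : ℝ) ^ (d + 1) ≤ ((d : ℝ) + 1) ^ (d + 1) := by
    have hd0 : (0 : ℝ) < d := by exact_mod_cast hd
    have h2 := one_add_mul_le_pow (a := (1 / d : ℝ)) (by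
      have : (0 : ℝ) ≤ 1 / d := by positivity
      linarith) (d + 1)
    have h3 : (2 : ℝ) ≤ (1 + 1 / d) ^ (d + 1) := by
      refine le_trans ?_ h2
      push_cast
      have : ((d : ℝ) + 1) * (1 / d) = 1 + 1 / d := by field_simp
      rw [this]
      have : (0 : ℝ) ≤ 1 / d := by positivity
      linarith
    have h4 : ((d : ℝ) + 1) = d * (1 + 1 / d) := by field_simp
    rw [h4, mul_pow, mul_comm]
    exact mul_le_mul_of_nonneg_left h3 (by positivity)
  exact_mod_cast h1

/-- A set from which a fraction `1 / D` has been removed. -/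
theorem card_sub {D a b c : ℕ} (h1 : a = b + c) (h2 : a ≤ D * c) : D * b ≤ (D - 1) * a := by
  rcases Nat.eq_zero_or_pos D with h | h
  · subst h
    simp
  · obtain ⟨d, rfl⟩ : ∃ d, D = d + 1 := ⟨D - 1, by omega⟩
    rw [Nat.add_sub_cancel]
    nlinarith

/-- **Certificates.** A finite family of oracles which are distinguished from a given oracle by a
quantum circuit can be distinguished from it by a few questions. -/
theorem exists_cert (A : Oracle) (C : List Gate) {B : ℕ} (hC : Short B C) {m : ℕ}
    (φ : Basis m → ℂ) (hφ : ∑ z, ‖φ z‖ ^ 2 = 1) (F : κ → Oracle) {k : ℕ} (X : Finset κ)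
    (hXk : X.card ≤ 2 ^ k) (h : ∀ i ∈ X, 1 / 6 ≤ |probW (F i) C φ - probW A C φ|) :
    ∃ l : List (List Bool), l.length = fac C.length * (k + 1) ∧ (∀ y ∈ l, y.length ≤ B) ∧
      ∀ i ∈ X, ∃ y ∈ l, F i y ≠ A y := by
  classical
  set D := fac C.length with hD
  have hD2 : 2 ≤ D := by rw [hD]; unfold fac; omega
  have key : ∀ N : ℕ, ∃ l : List (List Bool), l.length = N ∧ (∀ y ∈ l, y.length ≤ B) ∧
      D ^ N * (X.filter fun i => ∀ y ∈ l, F i y = A y).card ≤ (D - 1) ^ N * 2 ^ k := by
    intro N
    induction N with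
    | zero => exact ⟨[], rfl, by simp, by simpa using hXk⟩
    | succ N ih =>
      obtain ⟨l, h1, h2, h3⟩ := ih
      set X' := X.filter fun i => ∀ y ∈ l, F i y = A y with hX'
      rcases X'.eq_empty_or_nonempty with he | hne
      · refine ⟨[] :: l, by simp [h1], fun y hy => ?_, ?_⟩
        · rcases List.mem_cons.1 hy with rfl | hy
          · simp
          · exact h2 y hy
        · have : (X.filter fun i => ∀ y ∈ [] :: l, F i y = A y) = ∅ := by
            rw [eq_empty_iff_forall_notMem] at he ⊢
            intro i hi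
            rw [mem_filter] at hi
            exact he i (mem_filter.2 ⟨hi.1, fun y hy => hi.2 y (List.mem_cons_of_mem _ hy)⟩)
          rw [this, card_empty, mul_zero]
          exact Nat.zero_le _
      · obtain ⟨y, hy, hy2⟩ := exists_kill A C hC φ hφ F X' hne fun i hi => h i (mem_filter.1 hi).1
        refine ⟨y :: l, by simp [h1], fun z hz => ?_, ?_⟩
        · rcases List.mem_cons.1 hz with rfl | hz
          · exact hy
          · exact h2 z hz
        · have e1 : (X.filter fun i => ∀ z ∈ y :: l, F i z = A z) =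
              X'.filter fun i => F i y = A y := by
            ext i
            simp only [hX', mem_filter, List.mem_cons, forall_eq_or_imp]
            tauto
          have e2 : X'.card = (X'.filter fun i => F i y = A y).card +
              (X'.filter fun i => F i y ≠ A y).card :=
            (card_filter_add_card_filter_not _).symm
          have e3 : X'.card ≤ D * (X'.filter fun i => F i y ≠ A y).card := by
            refine hy2.trans (Nat.mul_le_mul_right _ ?_)
            rw [hD]
            unfold fac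
            omega
          have e4 := card_sub e2 e3
          rw [e1, pow_succ, pow_succ, mul_assoc]
          calc D ^ N * (D * (X'.filter fun i => F i y = A y).card)
              ≤ D ^ N * ((D - 1) * X'.card) := Nat.mul_le_mul_left _ e4
            _ = (D - 1) * (D ^ N * X'.card) := by ring
            _ ≤ (D - 1) * ((D - 1) ^ N * 2 ^ k) := Nat.mul_le_mul_left _ h3
            _ = (D - 1) ^ N * (D - 1) * 2 ^ k := by ring
  obtain ⟨l, h1, h2, h3⟩ := key (D * (k + 1))
  refine ⟨l, h1, h2, fun i hi => ?_⟩
  by_contra hc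
  push Not at hc
  have h4 : 1 ≤ (X.filter fun i => ∀ y ∈ l, F i y = A y).card :=
    card_pos.2 ⟨i, mem_filter.2 ⟨hi, hc⟩⟩
  have h5 : (2 * (D - 1) ^ D) ^ (k + 1) ≤ (D ^ D) ^ (k + 1) :=
    Nat.pow_le_pow_left (two_mul_pow_le hD2) _
  rw [mul_pow, ← pow_mul, ← pow_mul] at h5
  have h6 : 0 < (D - 1) ^ (D * (k + 1)) := by
    apply pow_pos
    omega
  have h7 : D ^ (D * (k + 1)) ≤ (D - 1) ^ (D * (k + 1)) * 2 ^ k := by
    refine le_trans ?_ h3
    exact Nat.le_mul_of_pos_right _ h4
  have h8 : 0 < 2 ^ k := by positivity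
  rw [pow_succ] at h5
  nlinarith

end Pool.Agent.H20LE
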