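import Pool.Agent.H20RD.QDefs
import Pool.Agent.H620R2.Gauge2.Defs

/-!
# Promise problems in `QMA` (with unentangled witnesses) and `BQP`, and the class `P ^ NP`, relative
to an oracle
-/

set_option autoImplicit false

namespace Pool.Agent.H20LE

open Pool.Agent.NPC Pool.Agent.H620R2.Gauge Pool.Agent.H9x.Q Pool.Agent.H20RD

/-- `φ` is a state of `m` qubits in which the first qubits contain the string `x`, the next `r`
registers of `k` qubits each contain `r` unentangled quantum witnesses (they are in the product of
the states `ψ 0, …, ψ (r - 1)`), and the remaining qubits are `0`. For `r = 1` this is one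
arbitrary quantum witness of `k` qubits. -/
def Unentangled {m : ℕ} (x : List Bool) (k r : ℕ) (φ : Basis m → ℂ) : Prop :=
  Witness x (k * r) φ ∧ ∃ ψ : ℕ → Basis k → ℂ, ∀ z : Basis m,
    (∀ i : Fin m, (i < x.length ∨ x.length + k * r ≤ i) → z i = x.getD i false) →
      φ z = ∏ j ∈ Finset.range r, ψ j fun i => bit z (x.length + k * j + i)

/-- The promise problem `(Yes, No)` is in `QMA` with `r |x|` unentangled quantum witnesses, relative
to `A`: a polynomial-time uniform family of quantum circuits accepts every `x` in `Yes` with
probability at least `2 / 3` for some unentangled quantum witnesses with `k |x|` qubits each, and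
every `x` in `No` with probability at most `1 / 3` for all unentangled quantum witnesses. (`QMA` is
the case `r = 1`.) -/
def InQMA (r : Polynomial ℕ) (A : Oracle) (Yes No : Set (List Bool)) : Prop :=
  ∃ (F : QFamily) (k : Polynomial ℕ),
    (∀ x ∈ Yes, ∃ φ : Basis (x.length + 1 + F.anc.eval x.length) → ℂ,
      Unentangled x (k.eval x.length) (r.eval x.length) φ ∧
        2 / 3 ≤ probW A (F.circ x.length) φ) ∧
    (∀ x ∈ No, ∀ φ : Basis (x.length + 1 + F.anc.eval x.length) → ℂ,
      Unentangled x (k.eval x.length) (r.eval x.length) φ →
        probW A (F.circ x.length) φ ≤ 1 / 3)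

/-- The promise problem `(Yes, No)` is in `BQP` relative to `A`: a polynomial-time uniform family
of quantum circuits accepts every `x` in `Yes` with probability at least `2 / 3`, and every `x` in
`No` with probability at most `1 / 3`. -/
def InBQP (A : Oracle) (Yes No : Set (List Bool)) : Prop :=
  ∃ F : QFamily, (∀ x ∈ Yes, 2 / 3 ≤ F.acc A x) ∧ ∀ x ∈ No, F.acc A x ≤ 1 / 3

/-- The language `L` is in `P ^ NP` relative to `J`: it is decided in polynomial time with an
oracle `K` which is in `NP` relative to `J`. -/
def IsPNP (J : Oracle) (L : Set (List Bool)) : Prop :=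
  ∃ K : Oracle, IsNP J {y | K y = true} ∧ IsP K L

end Pool.Agent.H20LE
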