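import Pool.Agent.H20LE.Tree
import Pool.Agent.H20LE.Defs
import Pool.Agent.H20RD.SparsePP
import Pool.Agent.H620R2.Gauge2.Defs

/-!
# Hypotheses: the oracles computed with advice
-/

set_option autoImplicit false

namespace Pool.Agent.H20LE

open Pool.Agent.NPC Pool.Agent.H622R2 Pool.Agent.H620R2.Gauge Pool.Agent.H9x.Q Pool.Agent.H20RD
  Finset

theorem length_unpair_add : ∀ y : List Bool,
    (unpair y).1.length + (unpair y).2.length ≤ y.length := by
  intro y
  unfold unpair
  rw [List.length_reverse]
  have : ∀ (n : ℕ) (s : List Bool × List Bool × Bool),
      (ustep^[n] s).1.length + (ustep^[n] s).2.1.length ≤ s.1.length + s.2.1.length := by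
    intro n
    induction n with
    | zero => intro s; exact le_rfl
    | succ n ih =>
      intro s
      rw [Function.iterate_succ_apply]
      refine (ih _).trans ?_
      obtain ⟨a, l, b⟩ := s
      unfold ustep
      cases b with
      | true => simp
      | false =>
        match l with
        | [] => simp
        | true :: [] => simp
        | true :: c :: l' => simp; omega
        | false :: l' => simp
  simpa using this y.length ([], y, false)

theorem length_unpair_fst (y : List Bool) : (unpair y).1.length ≤ y.length :=
  (Nat.le_add_right _ _).trans (length_unpair_add y)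

/-! ### The polynomials -/

/-- the size of the circuits -/
noncomputable def pP (F : QFamily) : Polynomial ℕ := F.size.choose

theorem pP_spec (F : QFamily) (n : ℕ) : (F.circ n).length ≤ (pP F).eval n ∧
    Short ((pP F).eval n) (F.circ n) := F.size.choose_spec n

/-- the length of the advice -/
noncomputable def pQ (P q : Polynomial ℕ) : Polynomial ℕ := q.comp P

/-- the length of the hypotheses -/
noncomputable def pH (P q : Polynomial ℕ) : Polynomial ℕ :=
  Polynomial.C 2 * pQ P q * (P + Polynomial.C 1) + (P + Polynomial.C 1)

/-- the length of the questions to the first oracle -/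
noncomputable def pR (P : Polynomial ℕ) (M : Alg) (q : Polynomial ℕ) : Polynomial ℕ :=
  M.out_local.choose.comp (Polynomial.C 2 * P + Polynomial.C 1 + pQ P q) + P

/-- the oracle computed with the advice coded in `w` -/
noncomputable def S (D : Oracle) (M : Alg) (Q b : ℕ) (w : List Bool) : Oracle := fun y =>
  decide (M.out D (pairBits y ((ent Q (b + 1) w).getD y.length [])) = some [true])

/-- the join of the oracles -/
noncomputable def fam (D : Oracle) (M : Alg) (Q b : ℕ) (w : List Bool) : Oracle :=
  join D (S D M Q b w)

/-- the family of oracles for the inputs of length `n` -/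
noncomputable def famn (P : Polynomial ℕ) (D : Oracle) (M : Alg) (q : Polynomial ℕ) (n : ℕ)
    (w : List Bool) : Oracle :=
  fam D M ((pQ P q).eval n) (P.eval n) w

/-- **There is a right hypothesis.** -/
theorem exists_hyp {O A : Oracle} {M : Alg} {q : Polynomial ℕ} {a : ℕ → List Bool}
    (ha : ∀ n, (a n).length ≤ q.eval n)
    (hA : ∀ y, A y = true ↔ M.out O (pairBits y (a y.length)) = some [true])
    (P : Polynomial ℕ) (n : ℕ) : ∃ w : List Bool, w.length = (pH P q).eval n ∧
      ∀ z : List Bool, z.length ≤ P.eval n →
        famn P (CC.cut ((pR P M q).eval n) O) M q n w z = join O A z := by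
  set b := P.eval n with hb
  set Q := (pQ P q).eval n with hQ
  have hQ2 : Q = q.eval b := by rw [hQ, pQ, Polynomial.eval_comp]
  obtain ⟨w, hw, hw2⟩ := exists_ent (b := Q) (K := b + 1)
    (l := (List.range (b + 1)).map a) (by simp) (by
      intro z hz
      rw [List.mem_map] at hz
      obtain ⟨i, hi, rfl⟩ := hz
      rw [List.mem_range] at hi
      rw [hQ2]
      exact (ha i).trans (eval_mono q (by omega)))
  refine ⟨w, ?_, ?_⟩
  · rw [hw]
    simp only [pH, Polynomial.eval_add, Polynomial.eval_mul, Polynomial.eval_C]
    rw [← hb, ← hQ]
  · intro z hz
    rcases z with _ | ⟨c, y⟩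
    · rfl
    · rw [List.length_cons] at hz
      cases c with
      | false =>
        change CC.cut ((pR P M q).eval n) O y = O y
        unfold CC.cut
        rw [if_pos]
        have : b ≤ (pR P M q).eval n := by
          rw [pR, Polynomial.eval_add]
          omega
        omega
      | true =>
        change S _ M Q b w y = A y
        unfold S
        rw [hw2]
        have h1 : ((List.range (b + 1)).map a).getD y.length [] = a y.length := by
          rw [List.getD_eq_getElem _ _ (by simp; omega)]
          simp
        rw [h1]
        obtain ⟨Qs, _, h2, h3⟩ := M.out_local.choose_spec O (pairBits y (a y.length))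
        have h4 := h3 (CC.cut ((pR P M q).eval n) O) (fun z hz => by
          unfold CC.cut
          rw [if_pos]
          refine (h2 z hz).trans ?_
          rw [pR, Polynomial.eval_add, Polynomial.eval_comp]
          refine le_trans (eval_mono _ ?_) (Nat.le_add_right _ _)
          have h5 : (a y.length).length ≤ Q := by
            rw [hQ2]
            exact (ha _).trans (eval_mono q (by omega))
          rw [length_pairBits]
          simp only [Polynomial.eval_add, Polynomial.eval_mul, Polynomial.eval_C]
          rw [← hb, ← hQ]
          omega)
        rw [h4]
        have h5 := hA y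
        cases h : A y with
        | true => rw [h] at h5; simpa using h5.1 rfl
        | false =>
          rw [h] at h5
          simpa using h5

end Pool.Agent.H20LE
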