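import Pool.Agent.H20RD.Dec

/-!
# Learning an oracle of a finite family with counterexamples to the majority
-/

set_option autoImplicit false

namespace Pool.Agent.H20LE

open Pool.Agent.NPC Pool.Agent.H622R2 Pool.Agent.H620R2.Gauge Pool.Agent.H20RD Finset

variable {κ : Type}

section defs

variable (F : κ → Oracle) (b : ℕ)

/-- the majority -/
def maj (X : Finset κ) : Oracle := fun z =>
  decide (X.card < 2 * (X.filter fun i => F i z = true).card)

/-- the members of the family for which `z` is a counterexample to the majority -/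
def upd (X : Finset κ) (z : List Bool) : Finset κ :=
  if z = [] then X else X.filter fun i => F i z ≠ maj F X z

/-- the members of the family after the counterexamples coded in `s` -/
def Xs (X : Finset κ) : ℕ → List Bool → Finset κ
  | 0, _ => X
  | t + 1, s => upd F (Xs X t s) (dec b (t * b) s)

/-- `v` codes a counterexample -/
def Cex (J : Oracle) (X : Finset κ) (v : List Bool) : Prop :=
  v.length = 2 * b ∧ J (dec b 0 v) ≠ maj F X (dec b 0 v)

/-- the question in the search for counterexamples -/
def Srch (J : Oracle) (X : Finset κ) (s : List Bool) : Prop :=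
  ∃ v, Cex F b J (Xs F b X (s.length / (2 * b)) s) v ∧
    (s.drop (2 * b * (s.length / (2 * b))) ++ [true]) <+: v

end defs

theorem dec_drop (b s : ℕ) (w : List Bool) : dec b s w = dec b 0 (w.drop (2 * s)) := by
  unfold dec
  have h : ∀ i, (w.drop (2 * s)).getD i false = w.getD (2 * s + i) false := by
    intro i
    simp [List.getD_eq_getElem?_getD, List.getElem?_drop]
  have e1 : ∀ j, w.getD (2 * (s + j)) false = (w.drop (2 * s)).getD (2 * (0 + j)) false := by
    intro j
    rw [h]
    congr 1
    ring
  have e2 : ∀ j, w.getD (2 * (s + j) + 1) false =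
      (w.drop (2 * s)).getD (2 * (0 + j) + 1) false := by
    intro j
    rw [h]
    congr 1
    ring
  simp only [e1, e2]

theorem dec_append {b s : ℕ} {w r : List Bool} (h : 2 * (s + b) ≤ w.length) :
    dec b s (w ++ r) = dec b s w := by
  unfold dec
  have h1 : ∀ i, i < w.length → (w ++ r).getD i false = w.getD i false := fun i hi =>
    List.getD_append _ _ _ _ hi
  have h2 : (List.range b).filter (fun j => (w ++ r).getD (2 * (s + j)) false) =
      (List.range b).filter (fun j => w.getD (2 * (s + j)) false) := by
    refine List.filter_congr fun j hj => ?_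
    rw [List.mem_range] at hj
    rw [h1 _ (by omega)]
  rw [h2]
  refine List.map_congr_left fun j hj => ?_
  have hj' := List.mem_range.1 (List.mem_of_mem_filter hj)
  rw [h1 _ (by omega)]

theorem dec_false (b n : ℕ) : dec b 0 (List.replicate n false) = [] := by
  unfold dec
  have : (List.range b).filter (fun j => (List.replicate n false).getD (2 * (0 + j)) false) =
      [] := by
    rw [List.filter_eq_nil_iff]
    intro j _
    have h : (List.replicate n false).getD (2 * (0 + j)) false = false := by
      rcases Nat.lt_or_ge (2 * (0 + j)) n with h | h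
      · rw [List.getD_eq_getElem _ _ (by simpa using h)]
        simp
      · exact List.getD_eq_default _ _ (by simpa using h)
    rw [h]
    simp
  rw [this]
  rfl

variable {F : κ → Oracle} {b : ℕ}

theorem Xs_append (X : Finset κ) (r : List Bool) : ∀ (t : ℕ) (s : List Bool),
    2 * b * t ≤ s.length → Xs F b X t (s ++ r) = Xs F b X t s := by
  intro t
  induction t with
  | zero => intro s _; rfl
  | succ t ih =>
    intro s hs
    have h1 : 2 * b * (t + 1) = 2 * (t * b + b) := by ring
    have h2 : 2 * b * t ≤ 2 * b * (t + 1) := Nat.mul_le_mul_left _ (Nat.le_succ _)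
    change upd F (Xs F b X t (s ++ r)) (dec b (t * b) (s ++ r)) =
      upd F (Xs F b X t s) (dec b (t * b) s)
    rw [ih s (h2.trans hs), dec_append (by omega)]

theorem maj_half (X : Finset κ) (z : List Bool) :
    2 * (X.filter fun i => F i z ≠ maj F X z).card ≤ X.card := by
  have h1 : (X.filter fun i => F i z = true).card + (X.filter fun i => F i z ≠ true).card =
      X.card := card_filter_add_card_filter_not _
  by_cases h2 : X.card < 2 * (X.filter fun i => F i z = true).card
  · have h3 : maj F X z = true := by simp [maj, h2]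
    rw [h3]
    omega
  · have h3 : maj F X z = false := by simp [maj, h2]
    have h4 : (X.filter fun i => F i z ≠ maj F X z) = X.filter fun i => F i z = true := by
      rw [h3]
      refine filter_congr fun i _ => ?_
      simp
    rw [h4]
    omega

theorem maj_nil {X : Finset κ} (h : ∀ i, F i [] = false) : maj F X [] = false := by
  simp [maj, h]

section run

variable {J : Oracle} {X : Finset κ} {sq : ℕ → List Bool}

theorem length_sq (h0 : sq 0 = []) (hs : ∀ n, ∃ c, sq (n + 1) = sq n ++ [c]) (n : ℕ) :
    (sq n).length = n := by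
  induction n with
  | zero => rw [h0]; rfl
  | succ n ih =>
    obtain ⟨c, hc⟩ := hs n
    rw [hc, List.length_append, ih]
    rfl

theorem sq_add (hs : ∀ n, ∃ c, sq (n + 1) = sq n ++ [c]) (n j : ℕ) :
    ∃ r, sq (n + j) = sq n ++ r := by
  induction j with
  | zero => exact ⟨[], by simp⟩
  | succ j ih =>
    obtain ⟨r, hr⟩ := ih
    obtain ⟨c, hc⟩ := hs (n + j)
    exact ⟨r ++ [c], by rw [← add_assoc, hc, hr, List.append_assoc]⟩

open Classical in
/-- one round of the search -/
theorem round (hb : 0 < b) (h0 : sq 0 = [])
    (hsq : ∀ n, sq (n + 1) = sq n ++ [decide (Srch F b J X (sq n))]) (t : ℕ) :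
    ((∃ v, Cex F b J (Xs F b X t (sq (2 * b * t))) v) →
      ∀ j ≤ 2 * b, ∃ v, Cex F b J (Xs F b X t (sq (2 * b * t))) v ∧
        (sq (2 * b * t + j)).drop (2 * b * t) <+: v) ∧
    ((¬ ∃ v, Cex F b J (Xs F b X t (sq (2 * b * t))) v) →
      ∀ j ≤ 2 * b, (sq (2 * b * t + j)).drop (2 * b * t) = List.replicate j false) := by
  have hs : ∀ n, ∃ c, sq (n + 1) = sq n ++ [c] := fun n => ⟨_, hsq n⟩
  have hlen := length_sq h0 hs
  have hX : ∀ j, Xs F b X t (sq (2 * b * t + j)) = Xs F b X t (sq (2 * b * t)) := by
    intro j
    obtain ⟨r, hr⟩ := sq_add hs (2 * b * t) j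
    rw [hr, Xs_append _ _ _ _ (by rw [hlen])]
  have hdiv : ∀ j < 2 * b, (2 * b * t + j) / (2 * b) = t := by
    intro j hj
    rw [Nat.mul_add_div (by omega), Nat.div_eq_of_lt hj, add_zero]
  have hstep : ∀ j < 2 * b, (sq (2 * b * t + (j + 1))).drop (2 * b * t) =
      (sq (2 * b * t + j)).drop (2 * b * t) ++ [decide (Srch F b J X (sq (2 * b * t + j)))] := by
    intro j _
    rw [← add_assoc, hsq, List.drop_append_of_le_length (by rw [hlen]; omega)]
  have hS : ∀ j < 2 * b, (Srch F b J X (sq (2 * b * t + j)) ↔
      ∃ v, Cex F b J (Xs F b X t (sq (2 * b * t))) v ∧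
        ((sq (2 * b * t + j)).drop (2 * b * t) ++ [true]) <+: v) := by
    intro j hj
    unfold Srch
    rw [hlen, hdiv j hj, hX j]
  constructor
  · intro hex j
    induction j with
    | zero =>
      intro _
      obtain ⟨v, hv⟩ := hex
      refine ⟨v, hv, ?_⟩
      rw [add_zero, List.drop_eq_nil_of_le (by rw [hlen])]
      exact List.nil_prefix
    | succ j ih =>
      intro hj
      by_cases h : Srch F b J X (sq (2 * b * t + j))
      · rw [hstep j (by omega), decide_eq_true h]
        exact (hS j (by omega)).1 h
      · rw [hstep j (by omega), decide_eq_false h]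
        obtain ⟨v, hv, hv2⟩ := ih (by omega)
        refine ⟨v, hv, ?_⟩
        obtain ⟨r, hr⟩ := hv2
        have hl : ((sq (2 * b * t + j)).drop (2 * b * t)).length = j := by
          rw [List.length_drop, hlen]
          omega
        rcases r with _ | ⟨c, r⟩
        · have := hv.1
          rw [← hr, List.append_nil, hl] at this
          omega
        · cases c with
          | true =>
            exfalso
            exact h ((hS j (by omega)).2 ⟨v, hv, r, by rw [← hr]; simp⟩)
          | false => exact ⟨r, by rw [← hr]; simp⟩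
  · intro hex j
    induction j with
    | zero =>
      intro _
      rw [add_zero, List.drop_eq_nil_of_le (by rw [hlen])]
      rfl
    | succ j ih =>
      intro hj
      have h : ¬ Srch F b J X (sq (2 * b * t + j)) := by
        rw [hS j (by omega)]
        rintro ⟨v, hv, _⟩
        exact hex ⟨v, hv⟩
      rw [hstep j (by omega), decide_eq_false h, ih (by omega), List.replicate_succ']

open Classical in
/-- **The majority is right in the end.** -/
theorem learned (hb : 0 < b) (h0 : sq 0 = [])
    (hsq : ∀ n, sq (n + 1) = sq n ++ [decide (Srch F b J X (sq n))])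
    (hF : ∀ i, F i [] = false) (hJ : J [] = false) {i₀ : κ} (hi : i₀ ∈ X)
    (hi2 : ∀ z : List Bool, z.length ≤ b → F i₀ z = J z) {k : ℕ} (hk : X.card ≤ 2 ^ k) :
    ∀ z : List Bool, z.length ≤ b →
      maj F (Xs F b X (k + 1) (sq (2 * b * (k + 1)))) z = J z := by
  have hs : ∀ n, ∃ c, sq (n + 1) = sq n ++ [c] := fun n => ⟨_, hsq n⟩
  have hlen := length_sq h0 hs
  have key : ∀ t, i₀ ∈ Xs F b X t (sq (2 * b * t)) ∧
      ((∀ z : List Bool, z.length ≤ b → maj F (Xs F b X t (sq (2 * b * t))) z = J z) ∨
        2 ^ t * (Xs F b X t (sq (2 * b * t))).card ≤ X.card) := by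
    intro t
    induction t with
    | zero => exact ⟨hi, Or.inr (by simp [Xs])⟩
    | succ t ih =>
      obtain ⟨r1, r2⟩ := round hb h0 hsq t
      set Y := Xs F b X t (sq (2 * b * t)) with hY
      have e1 : 2 * b * (t + 1) = 2 * b * t + 2 * b := by ring
      have e2 : Xs F b X (t + 1) (sq (2 * b * (t + 1))) =
          upd F Y (dec b 0 ((sq (2 * b * t + 2 * b)).drop (2 * b * t))) := by
        change upd F (Xs F b X t (sq (2 * b * (t + 1)))) (dec b (t * b) (sq (2 * b * (t + 1)))) = _
        rw [e1]
        obtain ⟨r, hr⟩ := sq_add hs (2 * b * t) (2 * b)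
        rw [dec_drop b (t * b), show 2 * (t * b) = 2 * b * t by ring]
        congr 1
        rw [hr, Xs_append _ _ _ _ (by rw [hlen])]
      by_cases hex : ∃ v, Cex F b J Y v
      · obtain ⟨v, hv, r, hr⟩ := r1 hex (2 * b) le_rfl
        have hl : ((sq (2 * b * t + 2 * b)).drop (2 * b * t)).length = 2 * b := by
          rw [List.length_drop, hlen]
          omega
        have hr0 : r = [] := by
          have h1 := hv.1
          rw [← hr, List.length_append, hl] at h1
          exact List.length_eq_zero_iff.1 (by omega)
        rw [hr0, List.append_nil] at hr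
        rw [e2, hr]
        set z := dec b 0 v with hz
        have hzb : z.length ≤ b := length_dec_le _ _ _
        have hz0 : z ≠ [] := by
          intro h
          have h1 := hv.2
          rw [← hz, h, hJ, maj_nil hF] at h1
          exact h1 rfl
        unfold upd
        rw [if_neg hz0]
        constructor
        · rw [mem_filter]
          exact ⟨ih.1, by rw [hi2 z hzb]; exact hv.2⟩
        · right
          rcases ih.2 with h | h
          · exact absurd (h z hzb).symm hv.2
          · have h2 := maj_half (F := F) Y z
            rw [pow_succ, mul_assoc]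
            exact (Nat.mul_le_mul_left _ h2).trans h
      · have h1 := r2 hex (2 * b) le_rfl
        rw [e2, h1, dec_false]
        unfold upd
        rw [if_pos rfl]
        refine ⟨ih.1, Or.inl fun z hz => ?_⟩
        by_contra hc
        obtain ⟨v, hv, hv2⟩ := exists_dec hz
        exact hex ⟨v, hv, by rw [hv2]; exact fun h => hc h.symm⟩
  rcases (key (k + 1)).2 with h | h
  · exact h
  · exfalso
    have h1 : 0 < (Xs F b X (k + 1) (sq (2 * b * (k + 1)))).card := card_pos.2 ⟨_, (key _).1⟩
    have h2 : 2 ^ k < 2 ^ (k + 1) := Nat.pow_lt_pow_right (by norm_num) (by omega)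
    have h3 : 2 ^ (k + 1) ≤ 2 ^ (k + 1) * (Xs F b X (k + 1) (sq (2 * b * (k + 1)))).card :=
      Nat.le_mul_of_pos_right _ h1
    omega

end run

end Pool.Agent.H20LE
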