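import Pool.Agent.H20LE.Orc

/-!
# Quantum witnesses can be replaced by classical certificates
-/

set_option autoImplicit false

namespace Pool.Agent.H20LE

open Pool.Agent.NPC Pool.Agent.H622R2 Pool.Agent.H620R2.Gauge Pool.Agent.H9x.Q Pool.Agent.H20RD
  Finset

section
variable {α : Type} [TEnc α]

theorem poly_ent {b K : α → ℕ} {u : α → List Bool} (hb : UPoly b) (hK : UPoly K) (hu : Poly u) :
    Poly fun a => ent (b a) (K a) (u a) := by
  have h1 : Poly fun a => idxs (b a) (K a) (u a) := by
    have h1 : Poly fun p : α × ℕ => 2 * b p.1 * K p.1 + p.2 :=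
      Poly.add (Poly.mul (Poly.mul (NPC.Poly.const 2) (hb.toPoly.comp (Poly.fst Poly.id)))
        (hK.toPoly.comp (Poly.fst Poly.id))) (Poly.snd Poly.id)
    exact Poly.filter (p := fun a i => (u a).getD (2 * b a * K a + i) false)
      hK.range (Poly.getD (d := fun _ => false) (hu.comp (Poly.fst Poly.id)) h1
        (NPC.Poly.const false))
  have hb' : UPoly fun p : α × ℕ => b p.1 := hb.comp (Poly.fst Poly.id)
  have hK' : UPoly fun p : α × ℕ => K p.1 := hK.comp (Poly.fst Poly.id)
  have h2 : UPoly fun p : α × ℕ => min p.2 (K p.1) :=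
    UPoly.of_le (Poly.min (Poly.snd Poly.id) hK'.toPoly) hK' fun p => min_le_right _ _
  refine (NPC.Poly.map h1 (F := fun a i => dec (b a) (min i (K a) * b a) (u a))
    (poly_dec hb' (UPoly.mul h2 hb') (hu.comp (Poly.fst Poly.id)))).congr fun a => ?_
  unfold ent
  refine List.map_congr_left fun i hi => ?_
  have h3 : i < K a := by
    unfold idxs at hi
    exact List.mem_range.1 (List.mem_of_mem_filter hi)
  rw [min_eq_left h3.le]

end

variable {B O A : Oracle} {R : ℕ → Polynomial ℕ} {num : Tp → ℕ}

/-- the oracle is computed with advice -/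
theorem advice_spec (hA : WithAdvice (IsP O) {y | A y = true}) :
    ∃ (M : Alg) (q : Polynomial ℕ) (a : ℕ → List Bool), (∀ n, (a n).length ≤ q.eval n) ∧
      ∀ y, A y = true ↔ M.out O (pairBits y (a y.length)) = some [true] := by
  obtain ⟨L', a, q, ⟨V, ⟨M, hM⟩, hV⟩, ha, hA⟩ := hA
  refine ⟨M, q, a, ha, fun y => ?_⟩
  have h1 := hA y
  rw [hM]
  change A y = true ↔ _ at h1
  rw [h1, hV, Option.some.injEq]

theorem inNP (hO : ∀ t y, O (code R (num t) y) = true ↔ Ans B O t y)
    (hA : WithAdvice (IsP O) {y | A y = true}) {r : Polynomial ℕ} {Yes No : Set (List Bool)}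
    (h : InQMA r (join O A) Yes No) : ∃ L, IsNP (join O A) L ∧ Yes ⊆ L ∧ Disjoint L No := by
  obtain ⟨M, q, a, ha, hA⟩ := advice_spec hA
  obtain ⟨F, k, hyes, hno⟩ := h
  set e := num (some (Sum.inr (Sum.inl (0, F, k, r, M, q)))) with he
  -- the algorithm
  set E : List Bool → List (List Bool) := fun y => ent ((pP F).eval (unpair y).2.length + 1)
    ((pK F q).eval (unpair y).2.length) (unpair y).1 with hE
  have hEp : Poly E := by
    have h1 : UPoly fun y : List Bool => (unpair y).2.length := UPoly.length (Poly.snd poly_unpair)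
    exact poly_ent (UPoly.add (h1.eval (pP F)) (UPoly.const 1)) (h1.eval (pK F q))
      (Poly.fst poly_unpair)
  set qs : List Bool → List (List Bool) := fun y => (false :: code R e y) :: (E y).map List.tail
    with hqs
  have hqp : Poly qs := Poly.cons (Poly.cons (NPC.Poly.const false) (CC.poly_code R e))
    (NPC.Poly.map hEp (F := fun _ z => z.tail) (Poly.tail (Poly.snd Poly.id)))
  set H : List Bool × List Bool → List Bool := fun p =>
    [decide (p.2 = true :: (E p.1).map fun z => z.headD false)] with hH
  have hHp : Poly H := by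
    refine Poly.cons (Poly.decide_eq (Poly.snd Poly.id) (Poly.cons (NPC.Poly.const true)
      (NPC.Poly.map (hEp.comp (Poly.fst Poly.id)) (F := fun _ z => z.headD false) ?_)))
      (NPC.Poly.const [])
    refine (Poly.getD (d := fun _ => false) (Poly.snd Poly.id) (NPC.Poly.const 0)
      (NPC.Poly.const false)).congr fun p => ?_
    cases p.2 <;> rfl
  have hFP := IsFP.tt (A := join O A) hqp hHp
  set V : List Bool → List Bool := fun y => H (y, (qs y).map (join O A)) with hV
  have hVt : ∀ u x, V (pairBits u x) = [true] ↔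
      Chk (CC.cut ((pR (pP F) M q).eval x.length) O) F k r M q u x ∧
        ∀ z ∈ ent ((pP F).eval x.length + 1) ((pK F q).eval x.length) u,
          join O A z.tail = z.headD false := by
    intro u x
    simp only [hV, hH, hqs, hE, unpair_pairBits, List.cons.injEq, and_true, decide_eq_true_eq,
      List.map_cons, List.map_map]
    refine and_congr ?_ ?_
    · change O (code R e (pairBits u x)) = true ↔ _
      rw [he, hO]
      simp only [Ans, Val, Q1, unpair_pairBits]
    · rw [List.map_inj_left]
      rfl
  set cb : Polynomial ℕ := Polynomial.C 2 * (pP F + Polynomial.C 1) * pK F q + pK F q with hcb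
  refine ⟨{x | ∃ u : List Bool, u.length ≤ cb.eval x.length ∧ V (pairBits u x) = [true]},
    ⟨V, cb, hFP, fun x => Iff.rfl⟩, fun x hx => ?_, ?_⟩
  · -- completeness
    obtain ⟨φ, hφ, hφ2⟩ := hyes x hx
    set b := (pP F).eval x.length with hb
    set D := CC.cut ((pR (pP F) M q).eval x.length) O with hD
    have hC := (pP_spec F x.length).2
    have hT := (pP_spec F x.length).1
    classical
    obtain ⟨l, hl1, hl2, hl3⟩ := exists_cert (join O A) (F.circ x.length) hC φ hφ.1.1
      (famn (pP F) D M q x.length) (k := (pH (pP F) q).eval x.length)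
      ((strs ((pH (pP F) q).eval x.length)).filter fun w =>
        probW (famn (pP F) D M q x.length w) (F.circ x.length) φ ≤ 1 / 3)
      ((card_filter_le _ _).trans (card_strs _).le) (fun w hw => by
        have h1 := (mem_filter.1 hw).2
        rw [abs_sub_comm]
        exact le_trans (by linarith) (le_abs_self _))
    have hlen : l.length ≤ (pK F q).eval x.length := by
      rw [hl1, pK]
      simp only [Polynomial.eval_mul, Polynomial.eval_add, Polynomial.eval_C, Polynomial.eval_pow]
      refine Nat.mul_le_mul_right _ ?_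
      unfold fac
      have := Nat.pow_le_pow_left hT 2
      omega
    obtain ⟨u, hu, hu2⟩ := exists_ent (b := b + 1) (K := (pK F q).eval x.length)
      (l := l.map fun z => join O A z :: z) (by rw [List.length_map]; exact hlen) (by
        intro z hz
        rw [List.mem_map] at hz
        obtain ⟨y, hy, rfl⟩ := hz
        have := hl2 y hy
        rw [List.length_cons]
        omega)
    refine ⟨u, ?_, (hVt u x).2 ⟨?_, ?_⟩⟩
    · rw [hu, hcb]
      simp only [Polynomial.eval_mul, Polynomial.eval_add, Polynomial.eval_C, ← hb]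
      exact le_rfl
    · intro w hw hw2
      rw [← hb, hu2] at hw2
      refine ⟨φ, hφ, ?_⟩
      by_contra hc
      rw [not_lt] at hc
      obtain ⟨y, hy, hy2⟩ := hl3 w (mem_filter.2 ⟨mem_strs.2 hw, hc⟩)
      exact hy2 (hw2 (join O A y :: y) (List.mem_map.2 ⟨y, hy, rfl⟩))
    · rw [← hb, hu2]
      intro z hz
      rw [List.mem_map] at hz
      obtain ⟨y, _, rfl⟩ := hz
      rfl
  · -- soundness
    rw [Set.disjoint_left]
    rintro x ⟨u, _, hu⟩ hx
    obtain ⟨h1, h2⟩ := (hVt u x).1 hu
    obtain ⟨w, hw, hw2⟩ := exists_hyp (O := O) (A := A) (M := M) ha hA (pP F) x.length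
    have hag : ∀ z : List Bool, z.length ≤ (pP F).eval x.length →
        famn (pP F) (CC.cut ((pR (pP F) M q).eval x.length) O) M q x.length w z = join O A z := hw2
    obtain ⟨φ, hφ, hφ2⟩ := h1 w hw (fun z hz => by
      rw [hag _ ?_]
      · exact h2 z hz
      · have := length_ent_le hz
        rw [List.length_tail]
        omega)
    have h3 := hno x hx φ hφ
    rw [probW_congr hag (F.circ x.length) (pP_spec F x.length).2] at hφ2
    linarith

end Pool.Agent.H20LE
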