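import Pool.Agent.H20LE.Hyp
import Pool.Agent.H20LE.Learn
import Pool.Agent.H620R2.GaugeX.X8
import Pool.Agent.H620R2.Gauge.Upper

/-!
# The oracle
-/

set_option autoImplicit false

namespace Pool.Agent.H20LE

open Pool.Agent.NPC Pool.Agent.H622R2 Pool.Agent.H620R2.Gauge Pool.Agent.H9x.Q Pool.Agent.H20RD
  Finset

/-- the length of the certificates -/
noncomputable def pK (F : QFamily) (q : Polynomial ℕ) : Polynomial ℕ :=
  (Polynomial.C 576 * pP F ^ 2 + Polynomial.C 2) * (pH (pP F) q + Polynomial.C 1)

/-- the number of questions -/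
noncomputable def pN (F : QFamily) (q : Polynomial ℕ) : Polynomial ℕ :=
  pH (pP F) q * (Polynomial.C 2 * (Polynomial.C 576 * pP F ^ 2 + Polynomial.C 2) + Polynomial.C 1) +
    Polynomial.C 1

section
variable (D : Oracle) (F : QFamily) (k r : Polynomial ℕ) (M : Alg) (q : Polynomial ℕ)

/-- `u` codes a certificate -/
def Chk (u x : List Bool) : Prop :=
  ∀ w : List Bool, w.length = (pH (pP F) q).eval x.length →
    (∀ z ∈ ent ((pP F).eval x.length + 1) ((pK F q).eval x.length) u,
      famn (pP F) D M q x.length w z.tail = z.headD false) →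
    ∃ φ : Basis (x.length + 1 + F.anc.eval x.length) → ℂ,
      Unentangled x (k.eval x.length) (r.eval x.length) φ ∧
        1 / 3 < probW (famn (pP F) D M q x.length w) (F.circ x.length) φ

/-- the members of the family which are consistent with the answers -/
noncomputable def stx (x cs : List Bool) : Finset (List Bool) :=
  st (fun w => F.acc (famn (pP F) D M q x.length w) x) (famn (pP F) D M q x.length)
    ((pP F).eval x.length) (fac (F.circ x.length).length) (strs ((pH (pP F) q).eval x.length)) cs

/-- the next question -/
noncomputable def pickx (x cs : List Bool) : List Bool :=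
  pick (fun w => F.acc (famn (pP F) D M q x.length w) x) (famn (pP F) D M q x.length)
    ((pP F).eval x.length) (fac (F.circ x.length).length) (stx D F M q x cs)

open Classical in
/-- a code of a string -/
noncomputable def encS (b : ℕ) (u : List Bool) : List Bool :=
  if h : u.length ≤ b then (exists_dec h).choose else []

theorem encS_spec {b : ℕ} {u : List Bool} (h : u.length ≤ b) :
    (encS b u).length = 2 * b ∧ dec b 0 (encS b u) = u := by
  unfold encS
  rw [dif_pos h]
  exact (exists_dec h).choose_spec

/-- the input in a question -/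
def Q1 : ℕ → List Bool → List Bool
  | 0, y => (unpair y).2
  | 1, y => (unpair (unpair y).1).1
  | _ + 2, y => (unpair y).1

theorem length_Q1 (i : ℕ) (y : List Bool) : (Q1 i y).length ≤ y.length := by
  match i with
  | 0 => exact length_unpair_snd y
  | 1 => exact (length_unpair_fst _).trans (length_unpair_fst y)
  | _ + 2 => exact length_unpair_fst y

/-- the answers -/
def Val : ℕ → List Bool → Prop
  | 0, y => Chk D F k r M q (unpair y).1 (unpair y).2
  | 1, y => (encS ((pP F).eval (Q1 1 y).length)
      (pickx D F M q (Q1 1 y) (unpair (unpair y).1).2)).getD (unpair y).2.length false = true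
  | i + 2, y => ∀ w ∈ stx D F M q (Q1 (i + 2) y) (unpair y).2,
      1 / 3 < F.acc (famn (pP F) D M q (Q1 (i + 2) y).length w) (Q1 (i + 2) y)

end

/-! ### Questions for space bounded algorithms -/

/-- the bound for space bounded algorithms -/
noncomputable def pS (N : SAlg) (p : Polynomial ℕ) : Polynomial ℕ := (pspace_task N p).choose

/-- the length of the questions -/
noncomputable def pB (N : SAlg) (p : Polynomial ℕ) : Polynomial ℕ := pS N p + Polynomial.C 1

section
variable (D : Oracle) (N : SAlg) (p : Polynomial ℕ) (M : Alg) (q : Polynomial ℕ)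

/-- the members of the family after the counterexamples coded in `s` -/
noncomputable def Xn (n : ℕ) (s : List Bool) : Finset (List Bool) :=
  Xs (famn (pB N p) D M q n) ((pB N p).eval n) (strs ((pH (pB N p) q).eval n))
    (s.length / (2 * (pB N p).eval n)) s

/-- the majority -/
noncomputable def mjn (n : ℕ) (s : List Bool) : Oracle :=
  maj (famn (pB N p) D M q n) (Xn D N p M q n s)

/-- the string `v` continues the search -/
def Pre (b : ℕ) (s v : List Bool) : Prop :=
  v.length = 2 * b ∧ (s.drop (2 * b * (s.length / (2 * b))) ++ [true]) <+: v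

/-- the input in a question -/
def Q2 : ℕ → List Bool → List Bool
  | 0, y => (unpair (unpair y).2).1
  | 1, y => (unpair (unpair y).2).1
  | _ + 2, y => (unpair y).1

theorem length_Q2 (i : ℕ) (y : List Bool) : (Q2 i y).length ≤ y.length := by
  match i with
  | 0 => exact (length_unpair_fst _).trans (length_unpair_snd y)
  | 1 => exact (length_unpair_fst _).trans (length_unpair_snd y)
  | _ + 2 => exact length_unpair_fst y

/-- the answers -/
def Val2 : ℕ → List Bool → Prop
  | 0, y => Pre ((pB N p).eval (Q2 0 y).length) (unpair (unpair y).2).2 (unpair y).1 ∧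
      mjn D N p M q (Q2 0 y).length (unpair (unpair y).2).2
        (dec ((pB N p).eval (Q2 0 y).length) 0 (unpair y).1) = true
  | 1, y => Pre ((pB N p).eval (Q2 1 y).length) (unpair (unpair y).2).2 (unpair y).1 ∧
      mjn D N p M q (Q2 1 y).length (unpair (unpair y).2).2
        (dec ((pB N p).eval (Q2 1 y).length) 0 (unpair y).1) = false
  | i + 2, y => CC.Acc N (CC.cut ((pS N p).eval (Q2 (i + 2) y).length)
      (mjn D N p M q (Q2 (i + 2) y).length (unpair y).2)) (Q2 (i + 2) y)

end

/-- the types of questions -/
abbrev Tp : Type := Option ((SAlg × Polynomial ℕ) ⊕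
  ((ℕ × QFamily × Polynomial ℕ × Polynomial ℕ × Alg × Polynomial ℕ) ⊕
    (ℕ × SAlg × Polynomial ℕ × Alg × Polynomial ℕ)))

/-- the bounds -/
noncomputable def bnd : Tp → Polynomial ℕ
  | none => 0
  | some (Sum.inl (M, p)) => pS M p
  | some (Sum.inr (Sum.inl (_, F, _, _, M, q))) => pR (pP F) M q
  | some (Sum.inr (Sum.inr (_, N, p, M, q))) => pR (pB N p) M q

/-- all the answers -/
def Ans (B : Oracle) (A : Oracle) : Tp → List Bool → Prop
  | none, y => B y = true
  | some (Sum.inl (M, p)), y => CC.Acc M (CC.cut ((pS M p).eval y.length) A) y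
  | some (Sum.inr (Sum.inl (i, F, k, r, M, q))), y =>
    Val (CC.cut ((pR (pP F) M q).eval (Q1 i y).length) A) F k r M q i y
  | some (Sum.inr (Sum.inr (i, N, p, M, q))), y =>
    Val2 (CC.cut ((pR (pB N p) M q).eval (Q2 i y).length) A) N p M q i y

theorem cut_congr {A A' : Oracle} {n m : ℕ} (h : ∀ z : List Bool, z.length < m → A z = A' z)
    (hn : n < m) : CC.cut n A = CC.cut n A' := by
  funext z
  unfold CC.cut
  split_ifs with hz
  · exact h z (by omega)
  · rfl

theorem exists_orc (B : Oracle) : ∃ (O : Oracle) (R : ℕ → Polynomial ℕ) (num : Tp → ℕ),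
    ∀ t y, O (code R (num t) y) = true ↔ Ans B O t y := by
  have : Countable QFamily := QFamily.countable
  have : Countable (Polynomial ℕ) := CC.poly_countable
  have : Countable Alg := Alg.countable
  have : Countable SAlg := CC.salg_countable
  obtain ⟨g, hg⟩ := exists_surjective_nat Tp
  choose num hnum using hg
  set R : ℕ → Polynomial ℕ := fun e => bnd (g e) with hR
  set V : ℕ → Oracle → List Bool → Prop := fun e A y => Ans B A (g e) y with hV
  have hloc : ∀ e A A' y, (∀ z : List Bool, z.length < (code R e y).length → A z = A' z) →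
      (V e A y ↔ V e A' y) := by
    intro e A A' y h
    have h1 := CC.lt_length_code R e y
    simp only [hV]
    rcases hge : g e with _ | ⟨M, p⟩ | ⟨i, F, k, r, M, q⟩ | ⟨i, N, p, M, q⟩
    · exact Iff.rfl
    · have h3 : (R e).eval y.length = (pS M p).eval y.length := by
        simp only [hR, hge, bnd]
      simp only [Ans, cut_congr h (show (pS M p).eval y.length < _ by omega)]
    · have h2 := eval_mono (pR (pP F) M q) (length_Q1 i y)
      have h3 : (R e).eval y.length = (pR (pP F) M q).eval y.length := by
        simp only [hR, hge, bnd]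
      simp only [Ans, cut_congr h (show (pR (pP F) M q).eval (Q1 i y).length < _ by omega)]
    · have h2 := eval_mono (pR (pB N p) M q) (length_Q2 i y)
      have h3 : (R e).eval y.length = (pR (pB N p) M q).eval y.length := by
        simp only [hR, hge, bnd]
      simp only [Ans, cut_congr h (show (pR (pB N p) M q).eval (Q2 i y).length < _ by omega)]
  refine ⟨CC.Phi R V fun _ => false, R, num, fun t y => ?_⟩
  rw [CC.Phi_code R V _ hloc]
  simp only [hV, hnum]

/-- the first oracle is computed from the new one -/
theorem base_reduces {B O : Oracle} {R : ℕ → Polynomial ℕ} {num : Tp → ℕ}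
    (hO : ∀ t y, O (code R (num t) y) = true ↔ Ans B O t y) :
    Reduces {y | B y = true} {y | O y = true} :=
  ⟨fun y => code R (num none) y, polyTime_of_poly_list (CC.poly_code R _), fun y =>
    (hO none y).symm⟩

/-- polynomial space is polynomial time relative to the oracle -/
theorem pspace_eq {B O : Oracle} {R : ℕ → Polynomial ℕ} {num : Tp → ℕ}
    (hO : ∀ t y, O (code R (num t) y) = true ↔ Ans B O t y) {L : Set (List Bool)}
    (hL : IsPSPACE O L) : IsP O L := by
  obtain ⟨M, p, hM⟩ := hL
  refine isP_of_reduces ⟨fun y => code R (num (some (Sum.inl (M, p)))) y,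
    polyTime_of_poly_list (CC.poly_code R _), fun y => ?_⟩
  rw [(pspace_task M p).choose_spec O L hM y]
  exact (hO (some (Sum.inl (M, p))) y).symm

end Pool.Agent.H20LE
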