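import Pool.Agent.H20LE.PT

/-!
# Polynomial space is contained in `P ^ NP`
-/

set_option autoImplicit false

namespace Pool.Agent.H20LE

open Pool.Agent.NPC Pool.Agent.H622R2 Pool.Agent.H620R2.Gauge Pool.Agent.H9x.Q Pool.Agent.H20RD
  Finset

section machine

variable (R : ℕ → Polynomial ℕ) (e0 e1 : ℕ) (P : Polynomial ℕ)

/-- the questions of the nondeterministic algorithm -/
def nq (y : List Bool) : List (List Bool) :=
  [dec (P.eval (unpair (unpair y).2.tail).1.length) 0 (unpair y).1,
    false :: code R e0 (pairBits (unpair y).1 (unpair y).2.tail),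
    false :: code R e1 (pairBits (unpair y).1 (unpair y).2.tail), false :: (unpair y).2.tail]

/-- its result -/
def nh (p : List Bool × List Bool) : List Bool :=
  if (unpair p.1).2.getD 0 false then
    (if p.2.getD 0 false then [p.2.getD 2 false] else [p.2.getD 1 false]) else [p.2.getD 3 false]

theorem poly_nq : Poly (nq R e0 e1 P) := by
  have h1 : Poly fun y : List Bool => (unpair y).2.tail := Poly.tail (Poly.snd poly_unpair)
  have h2 : UPoly fun y : List Bool => P.eval (unpair (unpair y).2.tail).1.length :=
    (UPoly.length (Poly.fst (poly_unpair.comp h1))).eval P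
  have h3 : Poly fun y : List Bool => pairBits (unpair y).1 (unpair y).2.tail :=
    poly_pairBits (Poly.fst poly_unpair) h1
  exact Poly.cons (poly_dec h2 (UPoly.const 0) (Poly.fst poly_unpair))
    (Poly.cons (Poly.cons (NPC.Poly.const false) ((CC.poly_code R e0).comp h3))
      (Poly.cons (Poly.cons (NPC.Poly.const false) ((CC.poly_code R e1).comp h3))
        (Poly.cons (Poly.cons (NPC.Poly.const false) h1) (NPC.Poly.const []))))

theorem poly_nh : Poly nh := by
  have h : ∀ i : ℕ, Poly fun p : List Bool × List Bool => p.2.getD i false := fun i =>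
    Poly.getD (d := fun _ => false) (Poly.snd Poly.id) (NPC.Poly.const i) (NPC.Poly.const false)
  have h' : ∀ i : ℕ, Poly fun p : List Bool × List Bool => [p.2.getD i false] := fun i =>
    Poly.cons (h i) (NPC.Poly.const [])
  have h0 : Poly fun p : List Bool × List Bool => (unpair p.1).2.getD 0 false :=
    Poly.getD (d := fun _ => false) (Poly.snd (poly_unpair.comp (Poly.fst Poly.id)))
      (NPC.Poly.const 0) (NPC.Poly.const false)
  refine (Poly.cond h0 (Poly.cond (h 0) (h' 2) (h' 1)) (h' 3)).congr fun p => ?_
  unfold nh
  cases (unpair p.1).2.getD 0 false <;> cases p.2.getD 0 false <;> rfl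

/-- one step of the search -/
def stp2 (K : Oracle) (s : List Bool) : List Bool :=
  pairBits (unpair s).1 ((unpair s).2 ++ [K (true :: s)])

theorem isFP_stp2 (K : Oracle) : IsFP K (stp2 K) :=
  IsFP.tt (A := K) (Q := fun s => [true :: s])
    (H := fun p => pairBits (unpair p.1).1 ((unpair p.1).2 ++ p.2))
    (Poly.cons (Poly.cons (NPC.Poly.const true) Poly.id) (NPC.Poly.const []))
    (poly_pairBits (Poly.fst (poly_unpair.comp (Poly.fst Poly.id)))
      (Poly.append (Poly.snd (poly_unpair.comp (Poly.fst Poly.id))) (Poly.snd Poly.id)))

end machine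

variable {B O A : Oracle} {R : ℕ → Polynomial ℕ} {num : Tp → ℕ}

theorem inPNP (hO : ∀ t y, O (code R (num t) y) = true ↔ Ans B O t y)
    (hA : WithAdvice (IsP O) {y | A y = true}) {L : Set (List Bool)}
    (hL : IsPSPACE (join O A) L) : IsPNP (join O A) L := by
  classical
  obtain ⟨M, q, a, ha, hA⟩ := advice_spec hA
  obtain ⟨N, p, hN⟩ := hL
  set J := join O A with hJ
  set P := pB N p with hP
  set e0 := num (some (Sum.inr (Sum.inr (0, N, p, M, q)))) with he0
  set e1 := num (some (Sum.inr (Sum.inr (1, N, p, M, q)))) with he1
  set e2 := num (some (Sum.inr (Sum.inr (2, N, p, M, q)))) with he2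
  let F : List Bool → List Bool → Oracle := fun x =>
    famn P (CC.cut ((pR P M q).eval x.length) O) M q x.length
  let X : List Bool → Finset (List Bool) := fun x => strs ((pH P q).eval x.length)
  -- the oracle in NP
  let Ks : List Bool → Prop := fun y => if y.getD 0 false = true then
    Srch (F (unpair y.tail).1) (P.eval (unpair y.tail).1.length) J (X (unpair y.tail).1)
      (unpair y.tail).2 else O y.tail = true
  let K : Oracle := fun y => decide (Ks y)
  have hVt : ∀ v z : List Bool, nh (pairBits v z, (nq R e0 e1 P (pairBits v z)).map J) = [true] ↔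
      if z.getD 0 false = true then
        Pre (P.eval (unpair z.tail).1.length) (unpair z.tail).2 v ∧
          J (dec (P.eval (unpair z.tail).1.length) 0 v) ≠
            maj (F (unpair z.tail).1) (Xs (F (unpair z.tail).1) (P.eval (unpair z.tail).1.length)
              (X (unpair z.tail).1)
              ((unpair z.tail).2.length / (2 * P.eval (unpair z.tail).1.length))
              (unpair z.tail).2) (dec (P.eval (unpair z.tail).1.length) 0 v)
        else O z.tail = true := by
    intro v z
    have h0 := hO (some (Sum.inr (Sum.inr (0, N, p, M, q)))) (pairBits v z.tail)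
    have h1 := hO (some (Sum.inr (Sum.inr (1, N, p, M, q)))) (pairBits v z.tail)
    simp only [Ans, Val2, Q2, unpair_pairBits] at h0 h1
    have e3 : J (false :: code R e0 (pairBits v z.tail)) = O (code R e0 (pairBits v z.tail)) := rfl
    have e4 : J (false :: code R e1 (pairBits v z.tail)) = O (code R e1 (pairBits v z.tail)) := rfl
    have e5 : J (false :: z.tail) = O z.tail := rfl
    unfold nh nq
    simp only [unpair_pairBits, List.map_cons, List.map_nil]
    rw [e3, e4, e5]
    by_cases hz : z.getD 0 false = true
    · rw [if_pos hz, if_pos hz]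
      simp only [List.getD_cons_zero, List.getD_cons_succ]
      change _ ↔ _ ∧ J _ ≠ mjn (CC.cut ((pR P M q).eval (unpair z.tail).1.length) O) N p M q
        (unpair z.tail).1.length (unpair z.tail).2 _
      by_cases hv : J (dec (P.eval (unpair z.tail).1.length) 0 v) = true
      · rw [if_pos hv, List.cons.injEq, and_iff_left rfl, h1, hv]
        refine and_congr Iff.rfl ?_
        change mjn _ N p M q _ _ _ = false ↔ _
        cases mjn (CC.cut ((pR P M q).eval (unpair z.tail).1.length) O) N p M q
          (unpair z.tail).1.length (unpair z.tail).2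
          (dec (P.eval (unpair z.tail).1.length) 0 v) <;> simp
      · rw [if_neg hv, List.cons.injEq, and_iff_left rfl, h0]
        rw [Bool.not_eq_true] at hv
        rw [hv]
        refine and_congr Iff.rfl ?_
        change mjn _ N p M q _ _ _ = true ↔ _
        cases mjn (CC.cut ((pR P M q).eval (unpair z.tail).1.length) O) N p M q
          (unpair z.tail).1.length (unpair z.tail).2
          (dec (P.eval (unpair z.tail).1.length) 0 v) <;> simp
    · rw [if_neg hz, if_neg hz]
      simp only [List.getD_cons_zero, List.getD_cons_succ, List.cons.injEq, and_true]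
  refine ⟨K, ⟨fun y => nh (y, (nq R e0 e1 P y).map J), Polynomial.C 2 * P,
    IsFP.tt (A := J) (poly_nq R e0 e1 P) poly_nh, fun z => ?_⟩, ?_⟩
  · -- the oracle is in NP
    simp only [hVt]
    change decide (Ks z) = true ↔ _
    rw [decide_eq_true_iff]
    simp only [Ks]
    by_cases hz : z.getD 0 false = true
    · simp only [if_pos hz]
      constructor
      · rintro ⟨v, ⟨h1, h2⟩, h3⟩
        refine ⟨v, ?_, ⟨h1, h3⟩, h2⟩
        rw [h1, Polynomial.eval_mul, Polynomial.eval_C]
        refine Nat.mul_le_mul_left _ (eval_mono P ((length_unpair_fst _).trans ?_))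
        rw [List.length_tail]
        omega
      · rintro ⟨v, _, ⟨h1, h3⟩, h2⟩
        exact ⟨v, ⟨h1, h2⟩, h3⟩
    · simp only [if_neg hz]
      constructor
      · intro h
        exact ⟨[], by simp, h⟩
      · rintro ⟨_, _, h⟩
        exact h
  · -- the algorithm
    let sq : List Bool → ℕ → List Bool := fun x n => n.rec [] fun _ c =>
      c ++ [decide (Srch (F x) (P.eval x.length) J (X x) c)]
    have hsq : ∀ x n, sq x (n + 1) = sq x n ++
      [decide (Srch (F x) (P.eval x.length) J (X x) (sq x n))] := fun x n => rfl
    have hlen : ∀ x n, (sq x n).length = n := fun x =>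
      length_sq rfl fun n => ⟨_, hsq x n⟩
    have hiter : ∀ (x : List Bool) (n : ℕ), (stp2 K)^[n] (pairBits x []) = pairBits x (sq x n) := by
      intro x n
      induction n with
      | zero => rfl
      | succ n ih =>
        rw [Function.iterate_succ_apply', ih, hsq]
        unfold stp2
        rw [unpair_pairBits]
        have : K (true :: pairBits x (sq x n)) =
            decide (Srch (F x) (P.eval x.length) J (X x) (sq x n)) := by
          simp only [K, Ks, List.getD_cons_zero, if_true, List.tail_cons, unpair_pairBits]
        rw [this]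
    set T : Polynomial ℕ := Polynomial.C 2 * P * (pH P q + Polynomial.C 1) with hT
    have hloop : IsFP K fun x => (stp2 K)^[T.eval x.length] (pairBits x []) := by
      refine IsFP.loop (isFP_stp2 K) (g := fun x => pairBits x [])
        (poly_pairBits Poly.id (NPC.Poly.const [])) T
        (Polynomial.C 2 * Polynomial.X + Polynomial.C 1 + T) fun x i hi => ?_
      rw [hiter, length_pairBits, hlen]
      simp only [Polynomial.eval_add, Polynomial.eval_mul, Polynomial.eval_C, Polynomial.eval_X]
      omega
    have hlast : IsFP K fun s => [K (false :: code R e2 s)] :=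
      IsFP.tt (A := K) (Q := fun s => [false :: code R e2 s]) (H := fun y => y.2)
        (Poly.cons (Poly.cons (NPC.Poly.const false) (CC.poly_code R e2)) (NPC.Poly.const []))
        (Poly.snd Poly.id)
    refine ⟨_, IsFP.comp hlast hloop, fun x => ?_⟩
    set b := P.eval x.length with hb
    have hb1 : b = (pS N p).eval x.length + 1 := by
      rw [hb, hP, pB, Polynomial.eval_add, Polynomial.eval_C]
    obtain ⟨w, hw, hw2⟩ := exists_hyp (O := O) (A := A) (M := M) ha hA P x.length
    have hl := learned (F := F x) (b := b) (J := J) (X := X x) (sq := sq x) (by omega) rfl (hsq x)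
      (fun i => rfl) rfl (mem_strs.2 hw) hw2 (k := (pH P q).eval x.length) (card_strs _).le
    have hTe : T.eval x.length = 2 * b * ((pH P q).eval x.length + 1) := by
      rw [hT]
      simp only [Polynomial.eval_add, Polynomial.eval_mul, Polynomial.eval_C]
      rw [← hb]
    have hdiv : 2 * b * ((pH P q).eval x.length + 1) / (2 * b) = (pH P q).eval x.length + 1 :=
      Nat.mul_div_cancel_left _ (by omega)
    rw [hiter]
    simp only [List.cons.injEq, and_true]
    have e6 : K (false :: code R e2 (pairBits x (sq x (T.eval x.length)))) =
        O (code R e2 (pairBits x (sq x (T.eval x.length)))) := by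
      simp [K, Ks]
    rw [e6, he2, hO]
    simp only [Ans, Val2, Q2, unpair_pairBits]
    rw [(pspace_task N p).choose_spec J L hN x]
    have hcut : CC.cut ((pS N p).eval x.length) J = CC.cut ((pS N p).eval x.length)
        (mjn (CC.cut ((pR (pB N p) M q).eval x.length) O) N p M q x.length
          (sq x (T.eval x.length))) := by
      funext z
      unfold CC.cut
      split_ifs with hz
      · have h1 := hl z (by omega)
        rw [← h1, hTe]
        unfold mjn Xn
        rw [hlen, ← hP, ← hb, hdiv]
        rfl
      · rfl
    change CC.Acc N (CC.cut ((pS N p).eval x.length) J) x ↔ _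
    rw [hcut]

end Pool.Agent.H20LE
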