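import Pool.Agent.H20LE.NP
import Pool.Agent.H620R2.GaugeR.R1

/-!
# Quantum algorithms can be replaced by deterministic ones
-/

set_option autoImplicit false

namespace Pool.Agent.H20LE

open Pool.Agent.NPC Pool.Agent.H622R2 Pool.Agent.H620R2.Gauge Pool.Agent.H9x.Q Pool.Agent.H20RD
  Finset

variable {B O A : Oracle} {R : ℕ → Polynomial ℕ} {num : Tp → ℕ}

section machine

variable (J : Oracle) (R : ℕ → Polynomial ℕ) (e : ℕ) (P : Polynomial ℕ)

/-- the questions for the bits of the next question -/
def bq (s : List Bool) : List (List Bool) :=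
  (List.range (2 * P.eval (unpair s).1.length)).map fun j =>
    false :: code R e (pairBits s (List.replicate (min j (2 * P.eval (unpair s).1.length)) true))

/-- one step -/
def stp (s : List Bool) : List Bool :=
  pairBits (unpair s).1 ((unpair s).2 ++
    [J (dec (P.eval (unpair s).1.length) 0 ((bq R e P s).map J))])

theorem upoly_len : UPoly fun s : List Bool => P.eval (unpair s).1.length :=
  (UPoly.length (Poly.fst poly_unpair)).eval P

theorem poly_bq : Poly (bq R e P) := by
  refine NPC.Poly.map (UPoly.mul (UPoly.const 2) (upoly_len P)).range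
    (F := fun s j => false :: code R e (pairBits s
      (List.replicate (min j (2 * P.eval (unpair s).1.length)) true))) ?_
  have h1 : UPoly (fun p : List Bool × ℕ => 2 * P.eval (unpair p.1).1.length) :=
    (UPoly.mul (UPoly.const 2) (upoly_len P)).comp (Poly.fst Poly.id)
  have h2 : Poly (fun p : List Bool × ℕ => pairBits p.1
      (List.replicate (min p.2 (2 * P.eval (unpair p.1).1.length)) true)) :=
    poly_pairBits (Poly.fst Poly.id) (poly_rep true (UPoly.of_le
      (Poly.min (Poly.snd Poly.id) h1.toPoly) h1 fun p => min_le_right _ _))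
  exact Poly.cons (NPC.Poly.const false) ((CC.poly_code R e).comp h2)

theorem isFP_stp : IsFP J (stp J R e P) := by
  have hF1 : IsFP J (fun s => (bq R e P s).map J) :=
    IsFP.tt (A := J) (Q := bq R e P) (H := fun y => y.2) (poly_bq R e P) (Poly.snd Poly.id)
  have hF2 : IsFP J (fun t => [J t]) :=
    IsFP.tt (A := J) (Q := fun t => [t]) (H := fun y => y.2)
      (Poly.cons Poly.id (NPC.Poly.const [])) (Poly.snd Poly.id)
  refine IsFP.seq (φ := fun p => dec (P.eval (unpair p.1).1.length) 0 p.2)
    (ψ := fun p => pairBits (unpair p.1).1 ((unpair p.1).2 ++ p.2.2)) hF1 hF2 ?_ ?_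
  · exact poly_dec ((upoly_len P).comp (Poly.fst Poly.id)) (UPoly.const 0) (Poly.snd Poly.id)
  · exact poly_pairBits (Poly.fst (poly_unpair.comp (Poly.fst Poly.id)))
      (Poly.append (Poly.snd (poly_unpair.comp (Poly.fst Poly.id)))
        (Poly.snd (Poly.snd Poly.id)))

end machine

theorem inP (hO : ∀ t y, O (code R (num t) y) = true ↔ Ans B O t y)
    (hA : WithAdvice (IsP O) {y | A y = true}) {Yes No : Set (List Bool)}
    (h : InBQP (join O A) Yes No) : ∃ L, IsP (join O A) L ∧ Yes ⊆ L ∧ Disjoint L No := by
  obtain ⟨M, q, a, ha, hA⟩ := advice_spec hA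
  obtain ⟨F, hyes, hno⟩ := h
  set J := join O A with hJ
  set e1 := num (some (Sum.inr (Sum.inl (1, F, 0, 0, M, q)))) with he1
  set e2 := num (some (Sum.inr (Sum.inl (2, F, 0, 0, M, q)))) with he2
  set P := pP F with hP
  set S := stp J R e1 P with hS
  -- the answers
  let D : List Bool → Oracle := fun x => CC.cut ((pR (pP F) M q).eval x.length) O
  let cs : List Bool → ℕ → List Bool := fun x n => n.rec [] fun _ c =>
    c ++ [J (pickx (D x) F M q x c)]
  have hcs0 : ∀ x, cs x 0 = [] := fun x => rfl
  have hcs : ∀ x n, cs x (n + 1) = cs x n ++ [J (pickx (D x) F M q x (cs x n))] := fun x n => rfl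
  have hcsl : ∀ x n, (cs x n).length = n := by
    intro x n
    induction n with
    | zero => rfl
    | succ n ih => rw [hcs, List.length_append, ih]; rfl
  have hstep : ∀ x c : List Bool, S (pairBits x c) =
      pairBits x (c ++ [J (pickx (D x) F M q x c)]) := by
    intro x c
    have hpk : (pickx (D x) F M q x c).length ≤ P.eval x.length := length_pick _
    have h1 : (bq R e1 P (pairBits x c)).map J =
        encS (P.eval x.length) (pickx (D x) F M q x c) := by
      refine List.ext_getElem ?_ fun j h1 h2 => ?_
      · rw [(encS_spec hpk).1]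
        simp [bq, unpair_pairBits]
      · rw [(encS_spec hpk).1] at h2
        simp only [bq, unpair_pairBits, List.map_map, List.getElem_map, List.getElem_range,
          Function.comp_apply]
        rw [min_eq_left h2.le]
        have h3 := hO (some (Sum.inr (Sum.inl (1, F, 0, 0, M, q)))) (pairBits (pairBits x c) (List.replicate j true))
        simp only [Ans, Val, Q1, unpair_pairBits, List.length_replicate] at h3
        have h4 : J (false :: code R e1 (pairBits (pairBits x c) (List.replicate j true))) =
            O (code R e1 (pairBits (pairBits x c) (List.replicate j true))) := rfl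
        rw [h4, Bool.eq_iff_iff, h3, List.getD_eq_getElem]
    rw [hS]
    unfold stp
    rw [h1]
    simp only [unpair_pairBits]
    rw [(encS_spec hpk).2]
  have hiter : ∀ (x : List Bool) (n : ℕ), S^[n] (pairBits x []) = pairBits x (cs x n) := by
    intro x n
    induction n with
    | zero => rfl
    | succ n ih => rw [Function.iterate_succ_apply', ih, hstep, hcs]
  have hloop : IsFP J fun x => S^[(pN F q).eval x.length] (pairBits x []) := by
    refine IsFP.loop (isFP_stp J R e1 P) (g := fun x => pairBits x [])
      (poly_pairBits Poly.id (NPC.Poly.const [])) (pN F q)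
      (Polynomial.C 2 * Polynomial.X + Polynomial.C 1 + pN F q) fun x i hi => ?_
    rw [← hS, hiter, length_pairBits, hcsl]
    simp only [Polynomial.eval_add, Polynomial.eval_mul, Polynomial.eval_C, Polynomial.eval_X]
    omega
  have hlast : IsFP J fun s => [J (false :: code R e2 s)] :=
    IsFP.tt (A := J) (Q := fun s => [false :: code R e2 s]) (H := fun y => y.2)
      (Poly.cons (Poly.cons (NPC.Poly.const false) (CC.poly_code R e2)) (NPC.Poly.const []))
      (Poly.snd Poly.id)
  have hV := IsFP.comp hlast hloop
  -- the value
  have hval : ∀ x, (fun s => [J (false :: code R e2 s)])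
      (S^[(pN F q).eval x.length] (pairBits x [])) = [true] ↔
      ∀ w ∈ stx (D x) F M q x (cs x ((pN F q).eval x.length)),
        1 / 3 < F.acc (famn (pP F) (D x) M q x.length w) x := by
    intro x
    rw [hiter]
    simp only [List.cons.injEq, and_true]
    change O (code R e2 (pairBits x (cs x ((pN F q).eval x.length)))) = true ↔ _
    rw [he2, hO]
    simp only [Ans, Val, Q1, unpair_pairBits]
    rfl
  have hdec : ∀ x, ∃ w, w ∈ stx (D x) F M q x (cs x ((pN F q).eval x.length)) ∧
      (∀ z : List Bool, z.length ≤ P.eval x.length → famn (pP F) (D x) M q x.length w z = J z) ∧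
      Decd (fun w => F.acc (famn (pP F) (D x) M q x.length w) x)
        (stx (D x) F M q x (cs x ((pN F q).eval x.length))) := by
    intro x
    obtain ⟨w, hw, hw2⟩ := exists_hyp (O := O) (A := A) (M := M) ha hA (pP F) x.length
    have h1 := decides (p := fun w => F.acc (famn (pP F) (D x) M q x.length w) x)
      (F := famn (pP F) (D x) M q x.length) (B := P.eval x.length) (D := fac (F.circ x.length).length)
      (fun X hX => exists_good (F := famn (pP F) (D x) M q x.length) (pP_spec F x.length).2
        (φ := ket (inp _ x)) (ket_norm _) X hX) (k := (pH (pP F) q).eval x.length)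
      (X := strs ((pH (pP F) q).eval x.length)) (card_strs _).le (A := J) (mem_strs.2 hw) hw2
      (cs := cs x) (hcs0 x) (hcs x) ((pN F q).eval x.length)
    refine ⟨w, h1.1, hw2, h1.2 ?_⟩
    rw [pN]
    simp only [Polynomial.eval_mul, Polynomial.eval_add, Polynomial.eval_C, Polynomial.eval_pow]
    refine Nat.lt_succ_of_le (Nat.mul_le_mul_left _ ?_)
    unfold fac
    have := Nat.pow_le_pow_left (pP_spec F x.length).1 2
    omega
  refine ⟨{x | (fun s => [J (false :: code R e2 s)])
      (S^[(pN F q).eval x.length] (pairBits x [])) = [true]}, ⟨_, hV, fun x => Iff.rfl⟩,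
    fun x hx => ?_, ?_⟩
  · refine (hval x).2 ?_
    obtain ⟨w, hw, hw2, hd⟩ := hdec x
    rcases hd with hd | hd
    · exact hd
    · have h1 := hd w hw
      have h2 : F.acc (famn (pP F) (D x) M q x.length w) x = F.acc J x :=
        prob_congr hw2 (F.circ x.length) (pP_spec F x.length).2 _ _
      have h3 := hyes x hx
      simp only at h1
      rw [h2] at h1
      linarith
  · rw [Set.disjoint_left]
    intro x hx hn
    obtain ⟨w, hw, hw2, _⟩ := hdec x
    have h1 := (hval x).1 hx w hw
    have h2 : F.acc (famn (pP F) (D x) M q x.length w) x = F.acc J x :=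
      prob_congr hw2 (F.circ x.length) (pP_spec F x.length).2 _ _
    have h3 := hno x hn
    rw [h2] at h1
    linarith

end Pool.Agent.H20LE
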