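import Pool.Agent.H20LE.NP
import Pool.Agent.H20RD.AeSparse
import Pool.Agent.H20RD.Hard

/-!
# Sparse sets are computed with advice
-/

set_option autoImplicit false

namespace Pool.Agent.H20LE

open Pool.Agent.NPC Pool.Agent.H622R2 Pool.Agent.H620R2.Gauge Pool.Agent.H9x.Q Pool.Agent.H20RD
  Finset

/-- the algorithm -/
def spV (K : Polynomial ℕ) (z : List Bool) : List Bool :=
  [decide ((unpair (unpair z).2).1.getD 0 false =
    (ent (unpair z).1.length (K.eval (unpair z).1.length) (unpair (unpair z).2).2).all fun t =>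
      !decide (t = (unpair z).1))]

theorem poly_spV (K : Polynomial ℕ) : Poly (spV K) := by
  have hy : Poly fun z : List Bool => (unpair z).1 := Poly.fst poly_unpair
  have hv : Poly fun z : List Bool => unpair (unpair z).2 := poly_unpair.comp (Poly.snd poly_unpair)
  refine Poly.cons (Poly.decide_eq (Poly.getD (d := fun _ => false) (Poly.fst hv)
    (NPC.Poly.const 0) (NPC.Poly.const false)) ?_) (NPC.Poly.const [])
  exact Poly.all (p := fun z t => !decide (t = (unpair z).1))
    (poly_ent (UPoly.length hy) ((UPoly.length hy).eval K) (Poly.snd hv))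
    (Poly.not (Poly.decide_eq (Poly.snd Poly.id) (hy.comp (Poly.fst Poly.id))))

theorem advice_of_sparse {O A : Oracle}
    (h : ∃ κ : Polynomial ℕ, ∀ n, (exc A n).card ≤ κ.eval n) :
    WithAdvice (IsP O) {y | A y = true} := by
  obtain ⟨κ, hκ⟩ := h
  have hex : ∀ n, ∃ u : List Bool, u.length = 2 * n * κ.eval n + κ.eval n ∧
      ent n (κ.eval n) u = (exc A n).toList := fun n =>
    exists_ent (by rw [length_toList]; exact hκ n) fun z hz => by
      rw [mem_toList] at hz
      exact mem_short.1 (mem_filter.1 hz).1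
  choose u hu hu2 using hex
  refine ⟨{z | spV κ z = [true]}, fun n => pairBits [A (List.replicate n false)] (u n),
    Polynomial.C 3 + Polynomial.C 2 * Polynomial.X * κ + κ,
    ⟨spV κ, IsFP.of_poly (poly_spV κ), fun x => Iff.rfl⟩, fun n => ?_, fun y => ?_⟩
  · rw [length_pairBits, hu]
    simp only [Polynomial.eval_add, Polynomial.eval_mul, Polynomial.eval_C, Polynomial.eval_X,
      List.length_singleton]
    omega
  · change A y = true ↔ spV κ _ = [true]
    unfold spV
    simp only [unpair_pairBits, hu2, List.getD_cons_zero, List.cons.injEq, and_true,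
      decide_eq_true_eq]
    have h1 : ((exc A y.length).toList.all fun t => !decide (t = y)) =
        decide (A y = dft A y) := by
      rw [Bool.eq_iff_iff, List.all_eq_true, decide_eq_true_iff]
      simp only [mem_toList, Bool.not_eq_true', decide_eq_false_iff_not]
      constructor
      · intro h
        by_contra hc
        exact h y (mem_filter.2 ⟨mem_short.2 le_rfl, hc⟩) rfl
      · rintro h t ht rfl
        exact (mem_filter.1 ht).2 h
    rw [h1]
    unfold dft
    cases A y <;> cases A (List.replicate y.length false) <;> simp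

/-- **There is a sparse set with the usual separations.** -/
theorem exists_hard (O : Oracle) : ∃ A : Oracle, WithAdvice (IsP O) {y | A y = true} ∧
    ∃ L : Set (List Bool), IsNP (join O A) L ∧ ¬ IsBQP (join O A) L ∧
      ¬ IsQMA (join O A) Lᶜ := by
  let p : ℕ → unitInterval := fun n => ⟨(1 / 2) ^ n, by positivity, pow_le_one₀ (by norm_num)
    (by norm_num)⟩
  have hp1 : ∀ n, 2 ^ n * min (p n : ℝ) (1 - p n) ≤ 1 := by
    intro n
    have h1 : min (p n : ℝ) (1 - p n) ≤ (1 / 2) ^ n := min_le_left _ _
    calc (2 : ℝ) ^ n * min (p n : ℝ) (1 - p n) ≤ 2 ^ n * (1 / 2) ^ n :=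
          mul_le_mul_of_nonneg_left h1 (by positivity)
      _ = 1 := by rw [← mul_pow]; norm_num
  have hp2 : ∀ n, 1 ≤ n → 2 ^ n * min (p n : ℝ) (1 - p n) = 1 := by
    intro n hn
    have h1 : (p n : ℝ) = (1 / 2) ^ n := rfl
    have h2 : (p n : ℝ) ≤ 1 / 2 := by
      rw [h1]
      calc (1 / 2 : ℝ) ^ n ≤ (1 / 2) ^ 1 := pow_le_pow_of_le_one (by norm_num) (by norm_num) hn
        _ = 1 / 2 := by norm_num
    rw [min_eq_left (by linarith), h1, ← mul_pow]
    norm_num
  have hns : ¬ Summable fun n => 2 ^ n * min (p n : ℝ) (1 - p n) := by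
    intro hs
    have h1 := hs.tendsto_atTop_zero
    have h2 : Filter.Tendsto (fun _ : ℕ => (1 : ℝ)) Filter.atTop (nhds 0) := by
      refine h1.congr' ?_
      filter_upwards [Filter.eventually_ge_atTop 1] with n hn
      exact hp2 n hn
    have h3 := tendsto_nhds_unique h2 tendsto_const_nhds
    norm_num at h3
  have h1 := hard O p hns
  have h2 := ae_sparse (p := p) ⟨1, fun n => by simpa using hp1 n⟩
  have h3 := (h1.and h2).exists
  obtain ⟨A, ⟨L, hL1, hL2, _, hL3, _⟩, hA⟩ := h3
  exact ⟨A, advice_of_sparse hA, L, hL1, hL2, hL3⟩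

end Pool.Agent.H20LE
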