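import Pool.Agent.H20LE.Core

/-!
# Quantum algorithms and small families of oracles: adaptive questions
-/

set_option autoImplicit false

namespace Pool.Agent.H20LE

open Pool.Agent.NPC Pool.Agent.H620R2.Gauge Pool.Agent.H9x.Q Pool.Agent.H20RD Finset

variable {κ : Type}

section defs

variable (p : κ → ℝ) (F : κ → Oracle) (B D : ℕ)

/-- the potential -/
noncomputable def psi (X : Finset κ) : ℕ := by
  classical
  exact (X.filter fun i => p i ≤ 1 / 3).card ^ D * (X.filter fun i => 2 / 3 ≤ p i).card ^ D * X.card

/-- a good question -/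
def Good (X : Finset κ) (y : List Bool) : Prop :=
  y.length ≤ B ∧ ∀ c : Bool, 2 * psi p D (X.filter fun i => F i y = c) ≤ psi p D X

open Classical in
/-- the question -/
noncomputable def pick (X : Finset κ) : List Bool :=
  if h : ∃ y, Good p F B D X y then h.choose else []

/-- the members of the family which are consistent with the answers -/
noncomputable def st (X : Finset κ) (cs : List Bool) : Finset κ :=
  cs.foldl (fun X c => X.filter fun i => F i (pick p F B D X) = c) X

/-- the result is known -/
def Decd (X : Finset κ) : Prop := (∀ i ∈ X, 1 / 3 < p i) ∨ ∀ i ∈ X, p i < 2 / 3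

end defs

variable {p : κ → ℝ} {F : κ → Oracle} {B D : ℕ}

theorem psi_mono {X Y : Finset κ} (h : X ⊆ Y) : psi p D X ≤ psi p D Y := by
  classical
  unfold psi
  exact Nat.mul_le_mul (Nat.mul_le_mul (Nat.pow_le_pow_left (card_le_card (filter_subset_filter _ h)) _)
    (Nat.pow_le_pow_left (card_le_card (filter_subset_filter _ h)) _)) (card_le_card h)

theorem psi_pos {X : Finset κ} (h : ¬ Decd p X) : 0 < psi p D X := by
  classical
  unfold Decd at h
  push Not at h
  obtain ⟨⟨i, hi, hi2⟩, j, hj, hj2⟩ := h
  unfold psi
  have h1 : 0 < (X.filter fun i => p i ≤ 1 / 3).card := card_pos.2 ⟨i, mem_filter.2 ⟨hi, hi2⟩⟩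
  have h2 : 0 < (X.filter fun i => 2 / 3 ≤ p i).card := card_pos.2 ⟨j, mem_filter.2 ⟨hj, hj2⟩⟩
  have h3 : 0 < X.card := card_pos.2 ⟨i, hi⟩
  positivity

theorem psi_le {X : Finset κ} {k : ℕ} (h : X.card ≤ 2 ^ k) : psi p D X ≤ 2 ^ (k * (2 * D + 1)) := by
  classical
  unfold psi
  have h1 : (X.filter fun i => p i ≤ 1 / 3).card ≤ 2 ^ k := (card_filter_le _ _).trans h
  have h2 : (X.filter fun i => 2 / 3 ≤ p i).card ≤ 2 ^ k := (card_filter_le _ _).trans h
  have e : 2 ^ (k * (2 * D + 1)) = (2 ^ k) ^ D * (2 ^ k) ^ D * 2 ^ k := by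
    rw [← pow_mul, ← pow_add, ← pow_add]
    congr 1
    ring
  rw [e]
  exact Nat.mul_le_mul (Nat.mul_le_mul (Nat.pow_le_pow_left h1 _) (Nat.pow_le_pow_left h2 _)) h

theorem Decd.mono {X Y : Finset κ} (h : Decd p Y) (hXY : X ⊆ Y) : Decd p X := by
  rcases h with h | h
  · exact Or.inl fun i hi => h i (hXY hi)
  · exact Or.inr fun i hi => h i (hXY hi)

theorem pow_half {D a b c : ℕ} (hD : 2 ≤ D) (h1 : a = b + c) (h2 : a ≤ D * c) :
    2 * b ^ D ≤ a ^ D := by
  have h3 := card_sub h1 h2
  have h4 : (D * b) ^ D ≤ ((D - 1) * a) ^ D := Nat.pow_le_pow_left h3 _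
  rw [mul_pow, mul_pow] at h4
  have h5 := two_mul_pow_le hD
  have h6 : 0 < D ^ D := by positivity
  have h7 : D ^ D * (2 * b ^ D) ≤ D ^ D * a ^ D := by
    calc D ^ D * (2 * b ^ D) = 2 * (D ^ D * b ^ D) := by ring
      _ ≤ 2 * ((D - 1) ^ D * a ^ D) := Nat.mul_le_mul_left _ h4
      _ = (2 * (D - 1) ^ D) * a ^ D := by ring
      _ ≤ D ^ D * a ^ D := Nat.mul_le_mul_right _ h5
  exact Nat.le_of_mul_le_mul_left h7 h6

/-- **A good question exists.** -/
theorem exists_good {C : List Gate} (hC : Short B C) {m : ℕ}
    {φ : Basis m → ℂ} (hφ : ∑ z, ‖φ z‖ ^ 2 = 1) (X : Finset κ)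
    (h : ¬ Decd (fun i => probW (F i) C φ) X) :
    ∃ y, Good (fun i => probW (F i) C φ) F B (fac C.length) X y := by
  classical
  set p : κ → ℝ := fun i => probW (F i) C φ with hp
  set D := fac C.length with hD
  have hD2 : 2 ≤ D := by rw [hD]; unfold fac; omega
  unfold Decd at h
  push Not at h
  obtain ⟨⟨i₀, hi₀, hi₀'⟩, j₀, hj₀, hj₀'⟩ := h
  -- the majority
  set M : Oracle := fun y => decide (X.card < 2 * (X.filter fun i => F i y = true).card) with hM
  have hmaj : ∀ y, 2 * (X.filter fun i => F i y ≠ M y).card ≤ X.card := by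
    intro y
    have h1 : (X.filter fun i => F i y = true).card + (X.filter fun i => F i y ≠ true).card =
        X.card := card_filter_add_card_filter_not _
    by_cases h2 : X.card < 2 * (X.filter fun i => F i y = true).card
    · have h3 : M y = true := by simp [hM, h2]
      rw [h3]
      omega
    · have h3 : M y = false := by simp [hM, h2]
      have h4 : (X.filter fun i => F i y ≠ M y) = X.filter fun i => F i y = true := by
        rw [h3]
        refine filter_congr fun i _ => ?_
        simp
      rw [h4]
      omega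
  -- the other answer halves the family
  have hother : ∀ y c, c ≠ M y → 2 * psi p D (X.filter fun i => F i y = c) ≤ psi p D X := by
    intro y c hc
    have h1 : (X.filter fun i => F i y = c) ⊆ X := filter_subset _ _
    have h2 : 2 * (X.filter fun i => F i y = c).card ≤ X.card := by
      refine le_trans (Nat.mul_le_mul_left _ (card_le_card ?_)) (hmaj y)
      intro i hi
      rw [mem_filter] at hi ⊢
      exact ⟨hi.1, by rw [hi.2]; exact hc⟩
    have h3 : ((X.filter fun i => F i y = c).filter fun i => p i ≤ 1 / 3).card ≤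
        (X.filter fun i => p i ≤ 1 / 3).card := card_le_card (filter_subset_filter _ h1)
    have h4 : ((X.filter fun i => F i y = c).filter fun i => 2 / 3 ≤ p i).card ≤
        (X.filter fun i => 2 / 3 ≤ p i).card := card_le_card (filter_subset_filter _ h1)
    unfold psi
    calc 2 * (((X.filter fun i => F i y = c).filter fun i => p i ≤ 1 / 3).card ^ D *
          ((X.filter fun i => F i y = c).filter fun i => 2 / 3 ≤ p i).card ^ D *
            (X.filter fun i => F i y = c).card)
        = ((X.filter fun i => F i y = c).filter fun i => p i ≤ 1 / 3).card ^ D *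
          ((X.filter fun i => F i y = c).filter fun i => 2 / 3 ≤ p i).card ^ D *
            (2 * (X.filter fun i => F i y = c).card) := by ring
      _ ≤ _ := Nat.mul_le_mul (Nat.mul_le_mul (Nat.pow_le_pow_left h3 _)
          (Nat.pow_le_pow_left h4 _)) h2
  rcases le_or_gt (1 / 2) (probW M C φ) with hm | hm
  · obtain ⟨y, hy, hy2⟩ := exists_kill M C hC φ hφ F (X.filter fun i => p i ≤ 1 / 3)
      ⟨i₀, mem_filter.2 ⟨hi₀, hi₀'⟩⟩ (fun i hi => by
        have h1 : probW (F i) C φ ≤ 1 / 3 := (mem_filter.1 hi).2
        rw [abs_sub_comm]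
        exact le_trans (by linarith) (le_abs_self _))
    refine ⟨y, hy, fun c => ?_⟩
    by_cases hc : c = M y
    · subst hc
      have h1 : ((X.filter fun i => p i ≤ 1 / 3).filter fun i => F i y = M y).card +
          ((X.filter fun i => p i ≤ 1 / 3).filter fun i => ¬ F i y = M y).card =
          (X.filter fun i => p i ≤ 1 / 3).card := card_filter_add_card_filter_not _
      have h2 := pow_half hD2 h1.symm (hy2.trans (Nat.mul_le_mul_right _ (by
        rw [hD]
        unfold fac
        omega)))
      have h3 : ((X.filter fun i => F i y = M y).filter fun i => p i ≤ 1 / 3) =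
          ((X.filter fun i => p i ≤ 1 / 3).filter fun i => F i y = M y) := filter_comm _ _ _
      have h4 : (X.filter fun i => F i y = M y) ⊆ X := filter_subset _ _
      unfold psi
      rw [h3, ← mul_assoc, ← mul_assoc]
      exact Nat.mul_le_mul (Nat.mul_le_mul h2 (Nat.pow_le_pow_left
        (card_le_card (filter_subset_filter _ h4)) _)) (card_le_card h4)
    · exact hother y c hc
  · obtain ⟨y, hy, hy2⟩ := exists_kill M C hC φ hφ F (X.filter fun i => 2 / 3 ≤ p i)
      ⟨j₀, mem_filter.2 ⟨hj₀, hj₀'⟩⟩ (fun i hi => by
        have h1 : 2 / 3 ≤ probW (F i) C φ := (mem_filter.1 hi).2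
        exact le_trans (by linarith) (le_abs_self _))
    refine ⟨y, hy, fun c => ?_⟩
    by_cases hc : c = M y
    · subst hc
      have h1 : ((X.filter fun i => 2 / 3 ≤ p i).filter fun i => F i y = M y).card +
          ((X.filter fun i => 2 / 3 ≤ p i).filter fun i => ¬ F i y = M y).card =
          (X.filter fun i => 2 / 3 ≤ p i).card := card_filter_add_card_filter_not _
      have h2 := pow_half hD2 h1.symm (hy2.trans (Nat.mul_le_mul_right _ (by
        rw [hD]
        unfold fac
        omega)))
      have h3 : ((X.filter fun i => F i y = M y).filter fun i => 2 / 3 ≤ p i) =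
          ((X.filter fun i => 2 / 3 ≤ p i).filter fun i => F i y = M y) := filter_comm _ _ _
      have h4 : (X.filter fun i => F i y = M y) ⊆ X := filter_subset _ _
      unfold psi
      rw [h3]
      calc 2 * (((X.filter fun i => F i y = M y).filter fun i => p i ≤ 1 / 3).card ^ D *
            ((X.filter fun i => 2 / 3 ≤ p i).filter fun i => F i y = M y).card ^ D *
              (X.filter fun i => F i y = M y).card)
          = ((X.filter fun i => F i y = M y).filter fun i => p i ≤ 1 / 3).card ^ D *
            (2 * ((X.filter fun i => 2 / 3 ≤ p i).filter fun i => F i y = M y).card ^ D) *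
              (X.filter fun i => F i y = M y).card := by ring
        _ ≤ _ := Nat.mul_le_mul (Nat.mul_le_mul (Nat.pow_le_pow_left
          (card_le_card (filter_subset_filter _ h4)) _) h2) (card_le_card h4)
    · exact hother y c hc

theorem length_pick (X : Finset κ) : (pick p F B D X).length ≤ B := by
  unfold pick
  split_ifs with h
  · exact h.choose_spec.1
  · simp

theorem st_concat (X : Finset κ) (cs : List Bool) (c : Bool) :
    st p F B D X (cs ++ [c]) = (st p F B D X cs).filter fun i =>
      F i (pick p F B D (st p F B D X cs)) = c := by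
  unfold st
  rw [List.foldl_append]
  rfl

/-- **The answers decide.** -/
theorem decides (hq : ∀ X : Finset κ, ¬ Decd p X → ∃ y, Good p F B D X y) {k : ℕ}
    {X : Finset κ} (hX : X.card ≤ 2 ^ k) {A : Oracle} {i₀ : κ} (h0 : i₀ ∈ X)
    (h1 : ∀ y : List Bool, y.length ≤ B → F i₀ y = A y) {cs : ℕ → List Bool} (hc0 : cs 0 = [])
    (hc : ∀ n, cs (n + 1) = cs n ++ [A (pick p F B D (st p F B D X (cs n)))]) (n : ℕ) :
    i₀ ∈ st p F B D X (cs n) ∧ (k * (2 * D + 1) < n → Decd p (st p F B D X (cs n))) := by
  constructor
  · induction n with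
    | zero => rw [hc0]; exact h0
    | succ n ih =>
      rw [hc, st_concat, mem_filter]
      exact ⟨ih, h1 _ (length_pick _)⟩
  · intro hn
    have key : ∀ n, Decd p (st p F B D X (cs n)) ∨
        2 ^ n * psi p D (st p F B D X (cs n)) ≤ psi p D X := by
      intro n
      induction n with
      | zero => right; rw [hc0]; simp [st]
      | succ n ih =>
        have hsub : st p F B D X (cs (n + 1)) ⊆ st p F B D X (cs n) := by
          rw [hc, st_concat]
          exact filter_subset _ _
        by_cases hd : Decd p (st p F B D X (cs n))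
        · exact Or.inl (hd.mono hsub)
        · right
          rcases ih with ih | ih
          · exact absurd ih hd
          · have hex := hq _ hd
            have h2 : Good p F B D (st p F B D X (cs n)) (pick p F B D (st p F B D X (cs n))) := by
              unfold pick
              rw [dif_pos hex]
              exact hex.choose_spec
            have h3 := h2.2 (A (pick p F B D (st p F B D X (cs n))))
            rw [hc, st_concat, pow_succ, mul_assoc]
            exact (Nat.mul_le_mul_left _ h3).trans ih
    rcases key n with h | h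
    · exact h
    · by_contra hd
      have h2 := psi_pos (D := D) hd
      have h3 := psi_le (p := p) (D := D) hX
      have h4 : 2 ^ (k * (2 * D + 1)) < 2 ^ n := Nat.pow_lt_pow_right (by norm_num) hn
      have h5 : 2 ^ n ≤ 2 ^ n * psi p D (st p F B D X (cs n)) := Nat.le_mul_of_pos_right _ h2
      omega

end Pool.Agent.H20LE
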